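import Mathlib
import Pool.Agent.Q7.NR.Syl
import Pool.Agent.Y419.DC.CF

/-!
# Basic facts: composition factors, transfer, abelian Sylow subgroups
-/

set_option autoImplicit false

namespace Pool.Agent.Q17.NRP

open Subgroup
open scoped commutatorElement
open Pool.Agent.Y60.DC (CompIn)

section comp

variable {S : ∀ (T : Type) [Group T], Prop}

theorem compIn_pgroup (p : ℕ) [hp : Fact p.Prime]
    (hS : ∀ (T : Type) [Group T], Nat.card T = p → S T) :
    ∀ (n : ℕ) (V : Type) [Group V], Nat.card V = p ^ n → CompIn S V := by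
  intro n
  induction n with
  | zero =>
    intro V _ h
    rw [pow_zero, Nat.card_eq_one_iff_unique] at h
    exact CompIn.one V h.1
  | succ n ih =>
    intro V _ h
    have hfin : Finite V := Nat.finite_of_card_ne_zero (by
      rw [h]; exact pow_ne_zero _ hp.out.ne_zero)
    obtain ⟨M, hM⟩ := Sylow.exists_subgroup_card_pow_prime (G := V) p (n := n)
      (by rw [h]; exact pow_dvd_pow p (Nat.le_succ n))
    have hidx : M.index = p := by
      have h1 := M.card_mul_index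
      rw [hM, h, pow_succ] at h1
      exact Nat.eq_of_mul_eq_mul_left (pow_pos hp.out.pos n) h1
    have hn : M.Normal := Subgroup.normal_of_index_eq_minFac_card (by
      rw [hidx, h, hp.out.pow_minFac (Nat.succ_ne_zero n)])
    exact CompIn.ext V M (ih M hM) (hS _ hidx)

theorem compIn_pi (hiso : ∀ (T T' : Type) [Group T] [Group T'], Nonempty (T ≃* T') → S T → S T')
    (hsim : ∀ (T : Type) [Group T], S T → IsSimpleGroup T) (T : Type) [Group T] (hT : S T) :
    ∀ m : ℕ, CompIn S (Fin m → T) := by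
  intro m
  induction m with
  | zero => exact CompIn.one _ inferInstance
  | succ m ih =>
    let f : (Fin (m + 1) → T) →* T := Pi.evalMonoidHom (fun _ => T) 0
    have hf : Function.Surjective f := fun t => ⟨fun _ => t, rfl⟩
    refine Pool.Agent.Y419.DC.ext' hiso f hf ?_ hT
    let g : (Fin m → T) →* f.ker :=
      { toFun := fun y => ⟨Fin.cons 1 y, rfl⟩
        map_one' := by
          apply Subtype.ext
          funext i
          refine Fin.cases ?_ (fun i => ?_) i
          · rfl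
          · rfl
        map_mul' := by
          intro a b
          apply Subtype.ext
          funext i
          refine Fin.cases ?_ (fun i => ?_) i
          · change (1 : T) = 1 * 1
            rw [one_mul]
          · rfl }
    refine Pool.Agent.Y419.DC.quot hiso hsim ih f.ker g ?_
    rintro ⟨x, hx⟩
    refine ⟨fun i => x i.succ, ?_⟩
    apply Subtype.ext
    funext i
    refine Fin.cases ?_ (fun i => ?_) i
    · exact (hx : x 0 = 1).symm
    · rfl

end comp

/-- A central element of the derived group of prime power order `r ^ k` is trivial if the Sylow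
`r`-subgroups are abelian. -/
theorem central_inter {Y : Type} [Group Y] [Finite Y] (r : ℕ) [hr : Fact r.Prime]
    (hS : ∀ P : Subgroup Y, IsPGroup r P → ∀ x ∈ P, ∀ y ∈ P, x * y = y * x)
    (z : Y) (hz : ∀ y, z * y = y * z) (hc : z ∈ commutator Y) (k : ℕ) (hk : z ^ r ^ k = 1) :
    z = 1 := by
  let P : Sylow r Y := default
  have hcomm : IsMulCommutative (P : Subgroup Y) := ⟨⟨fun a b =>
    Subtype.ext (hS P P.isPGroup' a a.2 b b.2)⟩⟩
  have hzP : z ∈ (P : Subgroup Y) := by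
    have h1 : IsPGroup r (Subgroup.zpowers z) := by
      rintro ⟨_, j, rfl⟩
      refine ⟨k, Subtype.ext ?_⟩
      change (z ^ j) ^ r ^ k = 1
      rw [← zpow_natCast, ← zpow_mul, mul_comm, zpow_mul, zpow_natCast, hk, one_zpow]
    have hn : (Subgroup.zpowers z).Normal := by
      refine ⟨?_⟩
      rintro _ ⟨j, rfl⟩ g
      have h2 : Commute g z := (hz g).symm
      have h3 : g * z ^ j * g⁻¹ = z ^ j := by
        rw [(h2.zpow_right j).eq, mul_inv_cancel_right]
      rw [h3]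
      exact ⟨j, rfl⟩
    have h2 : IsPGroup r (Subgroup.zpowers z ⊔ (P : Subgroup Y) : Subgroup Y) :=
      h1.to_sup_of_normal_left P.isPGroup'
    have h3 := P.is_maximal' h2 le_sup_right
    rw [← h3]
    exact (le_sup_left : _ ≤ Subgroup.zpowers z ⊔ (P : Subgroup Y)) (Subgroup.mem_zpowers z)
  open scoped IsMulCommutative in
  have key : ∀ (k : ℕ) (g₀ : Y), g₀⁻¹ * z ^ k * g₀ ∈ (P : Subgroup Y) →
      g₀⁻¹ * z ^ k * g₀ = z ^ k := by
    intro j g₀ _
    have h2 : Commute z g₀ := hz g₀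
    rw [mul_assoc, (h2.pow_left j).eq, inv_mul_cancel_left]
  open scoped IsMulCommutative in
  have h1 := MonoidHom.transfer_eq_pow (MonoidHom.id (P : Subgroup Y)) z key
  open scoped IsMulCommutative in
  have h2 : MonoidHom.transfer (MonoidHom.id (P : Subgroup Y)) z = 1 :=
    Abelianization.commutator_subset_ker _ hc
  open scoped IsMulCommutative in
  rw [h2] at h1
  have h3 : z ^ (P : Subgroup Y).index = 1 := (congrArg Subtype.val h1).symm
  have h4 : orderOf z ∣ r ^ k := orderOf_dvd_of_pow_eq_one hk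
  have h5 : orderOf z ∣ (P : Subgroup Y).index := orderOf_dvd_of_pow_eq_one h3
  have h6 : Nat.Coprime (r ^ k) (P : Subgroup Y).index :=
    ((Nat.Prime.coprime_iff_not_dvd hr.out).mpr P.not_dvd_index).pow_left k
  have h7 : orderOf z = 1 := Nat.eq_one_of_dvd_coprimes h6 h4 h5
  exact orderOf_eq_one_iff.1 h7

variable {X : Type} [Group X] [Finite X]

/-- The `r`-subgroups of `N` are commutative for all primes `r ≠ p`. -/
def AbR (p : ℕ) (N : Subgroup X) : Prop :=
  ∀ r : ℕ, r.Prime → r ≠ p → ∀ P : Subgroup X, P ≤ N → IsPGroup r P →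
    ∀ x ∈ P, ∀ y ∈ P, x * y = y * x

theorem AbR.mono {p : ℕ} {N M : Subgroup X} (h : AbR p N) (hM : M ≤ N) : AbR p M :=
  fun r hr hrp P hP => h r hr hrp P (hP.trans hM)

theorem AbR.map {p : ℕ} {N : Subgroup X} (h : AbR p N) {Y : Type} [Group Y] [Finite Y]
    (f : X →* Y) : AbR p (N.map f) := by
  intro r hr hrp P hPN hP x hx y hy
  have := Fact.mk hr
  let g : N →* N.map f := f.subgroupMap N
  have hg : Function.Surjective g := f.subgroupMap_surjective N
  have h1 : IsPGroup r (P.subgroupOf (N.map f)) := hP.comap_subtype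
  obtain ⟨Q, hQ⟩ := h1.exists_le_sylow
  obtain ⟨R, hR⟩ := Sylow.mapSurjective_surjective hg r Q
  have hR' : ∀ z : N.map f, (z : Y) ∈ P → ∃ w ∈ R, g w = z := by
    intro z hz
    have h2 : z ∈ Q := hQ (mem_subgroupOf.2 hz)
    rw [← hR] at h2
    exact h2
  obtain ⟨a, ha, hax⟩ := hR' ⟨x, hPN hx⟩ hx
  obtain ⟨b, hb, hby⟩ := hR' ⟨y, hPN hy⟩ hy
  have h3 := h r hr hrp ((R : Subgroup N).map N.subtype) (Subgroup.map_subtype_le _)
    (R.isPGroup'.map N.subtype) a ⟨a, ha, rfl⟩ b ⟨b, hb, rfl⟩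
  have ex : f a = x := congrArg Subtype.val hax
  have ey : f b = y := congrArg Subtype.val hby
  rw [← ex, ← ey, ← map_mul, ← map_mul, h3]

theorem AbR.type {p : ℕ} {N : Subgroup X} (h : AbR p N) (r : ℕ) (hr : r.Prime) (hrp : r ≠ p)
    (P : Subgroup N) (hP : IsPGroup r P) (x : N) (hx : x ∈ P) (y : N) (hy : y ∈ P) :
    x * y = y * x := by
  have h3 := h r hr hrp (P.map N.subtype) (Subgroup.map_subtype_le _)
    (hP.map N.subtype) x ⟨x, hx, rfl⟩ y ⟨y, hy, rfl⟩
  exact Subtype.ext h3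

lemma zpowers_pgroup {Y : Type} [Group Y] {r k : ℕ} {z : Y} (hk : z ^ r ^ k = 1) :
    IsPGroup r (Subgroup.zpowers z) := by
  rintro ⟨_, j, rfl⟩
  refine ⟨k, Subtype.ext ?_⟩
  change (z ^ j) ^ r ^ k = 1
  rw [← zpow_natCast, ← zpow_mul, mul_comm, zpow_mul, zpow_natCast, hk, one_zpow]

/-- `r`-elements commute with normal `r`-subgroups. -/
theorem AbR.comm {p : ℕ} {N : Subgroup X} (h : AbR p N) {r : ℕ} (hr : r.Prime) (hrp : r ≠ p)
    (B : Subgroup X) [B.Normal] (hB : B ≤ N) (hBr : IsPGroup r B) {b t : X} (hb : b ∈ B)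
    (ht : t ∈ N) {k : ℕ} (hk : t ^ r ^ k = 1) : b * t = t * b := by
  have := Fact.mk hr
  have h1 : IsPGroup r (Subgroup.zpowers t ⊔ B : Subgroup X) :=
    (zpowers_pgroup hk).to_sup_of_normal_right hBr
  exact h r hr hrp (Subgroup.zpowers t ⊔ B) (sup_le (by
    rw [Subgroup.zpowers_le]; exact ht) hB) h1 b
    ((le_sup_right : B ≤ Subgroup.zpowers t ⊔ B) hb) t
    ((le_sup_left : _ ≤ Subgroup.zpowers t ⊔ B) (Subgroup.mem_zpowers t))

/-- powers modulo the derived group -/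
lemma mul_pow_mem (N : Subgroup X) {x y : X} (hx : x ∈ N) (hy : y ∈ N) (n : ℕ)
    (h1 : x ^ n ∈ ⁅N, N⁆) (h2 : y ^ n ∈ ⁅N, N⁆) : (x * y) ^ n ∈ ⁅N, N⁆ := by
  have key : ∀ z : N, z ∈ commutator N ↔ (z : X) ∈ ⁅N, N⁆ := by
    intro z
    have h3 : (commutator N).map N.subtype = ⁅N, N⁆ := Subgroup.map_subtype_commutator N
    constructor
    · intro hz
      rw [← h3]
      exact ⟨z, hz, rfl⟩
    · intro hz
      rw [← h3] at hz
      obtain ⟨w, hw, hwz⟩ := hz
      rwa [← (Subtype.ext hwz : w = z)]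
  have hker : ∀ z : N, Abelianization.of z = 1 ↔ (z : X) ∈ ⁅N, N⁆ := by
    intro z
    rw [← key, ← MonoidHom.mem_ker, Abelianization.ker_of]
  have h3 : Abelianization.of ((⟨x, hx⟩ * ⟨y, hy⟩ : N) ^ n) = 1 := by
    have e1 : Abelianization.of ((⟨x, hx⟩ : N) ^ n) = 1 := (hker _).2 h1
    have e2 : Abelianization.of ((⟨y, hy⟩ : N) ^ n) = 1 := (hker _).2 h2
    rw [map_pow] at e1 e2
    rw [map_pow, map_mul, mul_pow, e1, e2, one_mul]
  exact (hker _).1 h3

/-- The elements of `N` whose order modulo the derived group of `N` is a power of `p`. -/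
def Mp (p : ℕ) (N : Subgroup X) : Subgroup X where
  carrier := {x | x ∈ N ∧ ∃ k : ℕ, x ^ p ^ k ∈ ⁅N, N⁆}
  mul_mem' := by
    rintro a b ⟨ha, k, hk⟩ ⟨hb, l, hl⟩
    refine ⟨N.mul_mem ha hb, k + l, mul_pow_mem N ha hb _ ?_ ?_⟩
    · rw [pow_add, pow_mul]
      exact Subgroup.pow_mem _ hk _
    · rw [pow_add, mul_comm, pow_mul]
      exact Subgroup.pow_mem _ hl _
  one_mem' := ⟨N.one_mem, 0, by rw [one_pow]; exact Subgroup.one_mem _⟩
  inv_mem' := by
    rintro a ⟨ha, k, hk⟩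
    exact ⟨N.inv_mem ha, k, by rw [inv_pow]; exact Subgroup.inv_mem _ hk⟩

lemma mem_Mp {p : ℕ} {N : Subgroup X} {x : X} :
    x ∈ Mp p N ↔ x ∈ N ∧ ∃ k : ℕ, x ^ p ^ k ∈ ⁅N, N⁆ := Iff.rfl

lemma Mp_le (p : ℕ) (N : Subgroup X) : Mp p N ≤ N := fun _ h => h.1

instance Mp_normal (p : ℕ) (N : Subgroup X) [hN : N.Normal] : (Mp p N).Normal := by
  have h1 : (⁅N, N⁆ : Subgroup X).Normal := inferInstance
  refine ⟨?_⟩
  rintro x ⟨hx, k, hk⟩ g
  refine ⟨hN.conj_mem _ hx _, k, ?_⟩
  rw [conj_pow]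
  exact h1.conj_mem _ hk _

lemma comm_le_Mp (p : ℕ) (N : Subgroup X) : ⁅N, N⁆ ≤ Mp p N := by
  intro x hx
  refine ⟨?_, 0, by simpa using hx⟩
  exact Subgroup.commutator_le_self N hx

lemma Mp_map {p : ℕ} {N : Subgroup X} {Y : Type} [Group Y] [Finite Y]
    (f : X →* Y) (hk : f.ker ≤ Mp p N) : (Mp p N).map f = Mp p (N.map f) := by
  apply le_antisymm
  · rintro _ ⟨x, ⟨hx, k, hxk⟩, rfl⟩
    refine ⟨⟨x, hx, rfl⟩, k, ?_⟩
    rw [← map_pow, ← Subgroup.map_commutator]
    exact ⟨_, hxk, rfl⟩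
  · rintro _ ⟨⟨x, hx, rfl⟩, k, hxk⟩
    refine ⟨x, ⟨hx, ?_⟩, rfl⟩
    rw [← map_pow, ← Subgroup.map_commutator] at hxk
    obtain ⟨c, hc, hcx⟩ := hxk
    have h1 : c⁻¹ * x ^ p ^ k ∈ f.ker := by
      rw [MonoidHom.mem_ker, map_mul, map_inv, hcx, inv_mul_cancel]
    have h2 : x ^ p ^ k ∈ Mp p N := by
      have := (Mp p N).mul_mem (comm_le_Mp p N hc) (hk h1)
      rwa [mul_inv_cancel_left] at this
    obtain ⟨-, l, hl⟩ := h2
    refine ⟨k + l, ?_⟩
    rw [pow_add, pow_mul]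
    exact hl

end Pool.Agent.Q17.NRP
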