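import Mathlib
import Pool.Agent.Q17.NRP.Basic
import Pool.Agent.Y60.DCF.Defs

/-!
# Definitions: kernels with abelian Sylow subgroups in characteristic `p`
-/

set_option autoImplicit false

namespace Pool.Agent.Q17.NRP

open Pool.Agent.Y60.DC (CompIn)
open Pool.Agent.Y60.DCF (Factor)

/-- For all primes `r ≠ p` the Sylow `r`-subgroups of `N` are commutative. -/
def AbelianSylows (p : ℕ) (N : Type) [Group N] : Prop :=
  ∀ (r : ℕ) [Fact r.Prime] (P : Sylow r N), r ≠ p → ∀ x ∈ P, ∀ y ∈ P, x * y = y * x

/-- The allowed composition factors: the groups of prime order (for any prime number) and those with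
`Factor p T` (file `Pool/Agent/Y60/DCF/Defs.lean`), namely the group of order `p`, the simple groups
`PSL_2(F)` (`F` a field with `p ^ k ≥ 4` elements, `p = 2` or `k` odd), `PSL_n(F)` (`F` a finite
field of characteristic `p`, `n ≥ 3` prime to `|F| - 1`), `PSp_2n(F)` (`F` a field with `p ^ k`
elements, `n ≥ 2` and `k` odd if `p ≠ 2`, `n ≥ 3` if `p = 2`), and the other classical groups in
characteristic `p` described there. -/
def Allowed (p : ℕ) [Fact p.Prime] (T : Type) [Group T] : Prop :=
  Factor p T ∨ (Nat.card T).Prime

/-- The conditions on the kernel: the Sylow `r`-subgroups of `N`, `r ≠ p`, are commutative, and `N`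
has a composition series all of whose factors are allowed. -/
def GoodKernel (p : ℕ) [Fact p.Prime] (N : Type) [Group N] : Prop :=
  AbelianSylows p N ∧ CompIn (Allowed p) N

/-- The largest abelian quotient of `N` is a `p`-group. -/
def AbelianizationIsPGroup (p : ℕ) (N : Type) [Group N] : Prop :=
  ∀ x : N, ∃ k : ℕ, x ^ p ^ k ∈ commutator N

/-- The normal subgroup of all elements `x` of `N` for which some `x ^ (p ^ k)` is in the commutator
subgroup of `N`; `N / residual p N` is the largest abelian quotient of `N` of order prime to `p`. -/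
abbrev residual (p : ℕ) {X : Type} [Group X] [Finite X] (N : Subgroup X) : Subgroup X :=
  Mp p N

/-- The defining property of `residual p N`. -/
theorem mem_residual {p : ℕ} {X : Type} [Group X] [Finite X] {N : Subgroup X} {x : X} :
    x ∈ residual p N ↔ x ∈ N ∧ ∃ k : ℕ, x ^ p ^ k ∈ ⁅N, N⁆ := Iff.rfl

/-- A weak solution of the embedding problem `X / M → Gal(L/K)` obtained from `α : X → Gal(L/K)`
(`M` is contained in the kernel of `α`): a homomorphism `s` of the group of a finite Galois
extension `L'/K` which contains `L` to `X / M`, not necessarily surjective, with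
`(α mod M) (s ρ) =` the restriction of `ρ` to `L`. It exists if `α` splits (then `L' = L`), and if
`M` is the kernel of `α`. -/
def WeakSolModulo (K L : Type) [Field K] [Field L] [Algebra K L] [Normal K L] {X : Type} [Group X]
    (α : X →* (L ≃ₐ[K] L)) (M : Subgroup X) [M.Normal] : Prop :=
  ∃ (L' : Type) (_ : Field L') (_ : Algebra K L') (_ : Algebra L L') (_ : IsScalarTower K L L')
    (_ : FiniteDimensional K L') (_ : IsGalois K L') (s : (L' ≃ₐ[K] L') →* X ⧸ M),
    ∀ (ρ : L' ≃ₐ[K] L') (x : X), s ρ = QuotientGroup.mk x → α x = ρ.restrictNormal L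

end Pool.Agent.Q17.NRP
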