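import Mathlib
import Pool.Agent.Q7.NR.Cop

/-!
# Complements of coprime commutators

Conjugacy of the complements of a normal abelian Hall subgroup, and the splitting of a group over
`[B, T]`, `B` an abelian normal subgroup, `T / B` a normal subgroup of order prime to that of `B`.
-/

set_option autoImplicit false

namespace Pool.Agent.Q17.NRP

open Subgroup MulAction MulOpposite
open scoped commutatorElement Pointwise

section conj

variable {G : Type} [Group G] [Finite G] {H : Subgroup G} [IsMulCommutative H] [H.Normal]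

/-- the class of a complement -/
def qd (K : Subgroup G) (hK : IsComplement' H K) : H.QuotientDiff :=
  Quotient.mk'' (⟨(K : Set G), hK.symm⟩ : H.LeftTransversal)

theorem stab_compl (hH : Nat.Coprime (Nat.card H) H.index) (K : Subgroup G)
    (hK : IsComplement' H K) :
    stabilizer G (qd K hK) = K := by
  have h1 : K ≤ stabilizer G (qd K hK) := by
    intro k hk
    rw [mem_stabilizer_iff]
    change (Quotient.mk'' (op k⁻¹ • (⟨(K : Set G), hK.symm⟩ : H.LeftTransversal)) :
      H.QuotientDiff) = _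
    congr 1
    apply Subtype.ext
    change (op k⁻¹ • (K : Set G)) = K
    ext g
    rw [Set.mem_smul_set]
    constructor
    · rintro ⟨y, hy, rfl⟩
      exact K.mul_mem hy (K.inv_mem hk)
    · intro hg
      refine ⟨g * k, K.mul_mem hg hk, ?_⟩
      change g * k * k⁻¹ = g
      group
  have h2 := hK.card_mul_card
  have h3 := (isComplement'_stabilizer_of_coprime (α := qd K hK) hH).card_mul_card
  have h4 : Nat.card (stabilizer G (qd K hK)) = Nat.card K := by
    have h5 : 0 < Nat.card H := Nat.card_pos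
    exact Nat.eq_of_mul_eq_mul_left h5 (h3.trans h2.symm)
  exact (Subgroup.eq_of_le_of_card_ge h1 h4.le).symm

/-- Complements of a normal abelian Hall subgroup are conjugate. -/
theorem sz_conj (hH : Nat.Coprime (Nat.card H) H.index) (K K' : Subgroup G)
    (hK : IsComplement' H K) (hK' : IsComplement' H K') :
    ∃ h ∈ H, ∀ g, g ∈ K' ↔ h⁻¹ * g * h ∈ K := by
  obtain ⟨h, hh⟩ := exists_smul_eq hH
    (qd K hK) (qd K' hK')
  refine ⟨h, h.2, fun g => ?_⟩
  have e1 := stab_compl hH K hK
  have e2 := stab_compl hH K' hK'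
  have hh' : (h : G) • qd K hK = qd K' hK' := hh
  constructor
  · intro hg
    rw [← e2, mem_stabilizer_iff, ← hh'] at hg
    rw [← e1, mem_stabilizer_iff, mul_smul, mul_smul, hg, inv_smul_smul]
  · intro hg
    rw [← e1, mem_stabilizer_iff, mul_smul, mul_smul, inv_smul_eq_iff] at hg
    rw [← e2, mem_stabilizer_iff, ← hh']
    exact hg

end conj

/-- The splitting over a coprime commutator. -/
theorem split_coprime {X : Type} [Group X] [Finite X] (B T : Subgroup X) [hBn : B.Normal]
    [hTn : T.Normal] (hB : ∀ a ∈ B, ∀ b ∈ B, a * b = b * a) (hBT : B ≤ T)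
    (hcop : (Nat.card B).Coprime (B.subgroupOf T).index) :
    ∃ H : Subgroup X, ⁅B, T⁆ ⊓ H = ⊥ ∧ ⁅B, T⁆ ⊔ H = ⊤ := by
  classical
  have hBn' : (B.subgroupOf T).Normal := inferInstance
  have hcomm : IsMulCommutative (B.subgroupOf T) := ⟨⟨by
    rintro ⟨a, ha⟩ ⟨b, hb⟩
    apply Subtype.ext
    apply Subtype.ext
    exact hB _ (mem_subgroupOf.1 ha) _ (mem_subgroupOf.1 hb)⟩⟩
  have hcard : Nat.card (B.subgroupOf T) = Nat.card B :=
    Nat.card_congr (Subgroup.subgroupOfEquivOfLe hBT).toEquiv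
  have hcop' : Nat.Coprime (Nat.card (B.subgroupOf T)) (B.subgroupOf T).index := by
    rw [hcard]
    exact hcop
  obtain ⟨K, hK⟩ := Subgroup.exists_right_complement'_of_coprime hcop'
  let R : Subgroup X := K.map T.subtype
  have hRT : R ≤ T := by
    rintro _ ⟨x, -, rfl⟩
    exact x.2
  have hmemR : ∀ t : T, (t : X) ∈ R ↔ t ∈ K := by
    intro t
    constructor
    · rintro ⟨s, hs, hst⟩
      rwa [← Subtype.ext hst]
    · intro ht
      exact ⟨t, ht, rfl⟩
  have hcardR : Nat.card R = (B.subgroupOf T).index := by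
    have h1 : Nat.card R = Nat.card K :=
      (Nat.card_congr (K.equivMapOfInjective T.subtype T.subtype_injective).toEquiv).symm
    rw [h1]
    exact hK.symm.index_eq_card.symm
  have hcopR : (Nat.card B).Coprime (Nat.card R) := by
    rw [hcardR]
    exact hcop
  -- the Frattini argument
  have hfrat : ∀ x : X, ∃ b ∈ B, b⁻¹ * x ∈ normalizer (R : Set X) := by
    intro x
    let c : T ≃* T := MulAut.conjNormal x
    have hc : ∀ t : T, ((c t : T) : X) = x * t * x⁻¹ := fun t => MulAut.conjNormal_apply x t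
    have hK'' : IsComplement' (B.subgroupOf T) (K.map c.toMonoidHom) := by
      have h1 : (B.subgroupOf T).map c.toMonoidHom = B.subgroupOf T := by
        apply Subgroup.eq_of_le_of_card_ge
        · rintro _ ⟨t, ht, rfl⟩
          rw [mem_subgroupOf]
          change ((c t : T) : X) ∈ B
          rw [hc]
          exact hBn.conj_mem _ (mem_subgroupOf.1 ht) _
        · exact (Nat.card_congr
            ((B.subgroupOf T).equivMapOfInjective c.toMonoidHom c.injective).toEquiv).le
      have h2 : Nat.card (K.map c.toMonoidHom) = Nat.card K :=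
        (Nat.card_congr (K.equivMapOfInjective c.toMonoidHom c.injective).toEquiv).symm
      apply Subgroup.isComplement'_of_card_mul_and_disjoint
      · rw [h2]
        exact hK.card_mul_card
      · rw [← h1]
        exact Subgroup.disjoint_map c.injective hK.disjoint
    obtain ⟨b, hb, hbK⟩ := sz_conj hcop' K (K.map c.toMonoidHom) hK hK''
    refine ⟨b, mem_subgroupOf.1 hb, ?_⟩
    have key : ∀ t : T, t ∈ K ↔ b⁻¹ * c t * b ∈ K := by
      intro t
      rw [← hbK]
      constructor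
      · intro ht
        exact ⟨t, ht, rfl⟩
      · rintro ⟨s, hs, hst⟩
        have : s = t := c.injective hst
        rwa [← this]
    rw [Subgroup.mem_normalizer_iff]
    intro h
    constructor
    · intro hh
      have hT : h ∈ T := hRT hh
      have h1 := (key ⟨h, hT⟩).1 ((hmemR ⟨h, hT⟩).1 hh)
      have h2 := (hmemR _).2 h1
      have h3 : ((b⁻¹ * c ⟨h, hT⟩ * b : T) : X) = (b : X)⁻¹ * x * h * ((b : X)⁻¹ * x)⁻¹ := by
        rw [Subgroup.coe_mul, Subgroup.coe_mul, hc, Subgroup.coe_inv]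
        group
      rwa [h3] at h2
    · intro hh
      have hT : h ∈ T := by
        have h1 : (b : X)⁻¹ * x * h * ((b : X)⁻¹ * x)⁻¹ ∈ T := hRT hh
        have h2 := hTn.conj_mem _ h1 ((b : X)⁻¹ * x)⁻¹
        have h3 : ((b : X)⁻¹ * x)⁻¹ * ((b : X)⁻¹ * x * h * ((b : X)⁻¹ * x)⁻¹) *
            (((b : X)⁻¹ * x)⁻¹)⁻¹ = h := by group
        rwa [h3] at h2
      apply (hmemR ⟨h, hT⟩).2
      rw [key ⟨h, hT⟩]
      apply (hmemR _).1
      have h3 : ((b⁻¹ * c ⟨h, hT⟩ * b : T) : X) = (b : X)⁻¹ * x * h * ((b : X)⁻¹ * x)⁻¹ := by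
        rw [Subgroup.coe_mul, Subgroup.coe_mul, hc, Subgroup.coe_inv]
        group
      rw [h3]
      exact hh
  -- `T = B R`
  have hTBR : ∀ t ∈ T, ∃ b ∈ B, ∃ r ∈ R, t = b * r := by
    intro t ht
    have h1 : (⟨t, ht⟩ : T) ∈ (B.subgroupOf T) ⊔ K := by
      rw [hK.sup_eq_top]
      trivial
    obtain ⟨b, hb, r, hr, hbr⟩ := Subgroup.mem_sup_of_normal_left.mp h1
    exact ⟨b, mem_subgroupOf.1 hb, r, (hmemR r).2 hr, (congrArg Subtype.val hbr).symm⟩
  have hle : ⁅B, T⁆ ≤ ⁅B, R⁆ := by
    rw [Subgroup.commutator_le]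
    intro b hb t ht
    obtain ⟨a, ha, r, hr, rfl⟩ := hTBR t ht
    have h3 : ⁅b, a * r⁆ = ⁅b, r⁆ := by
      rw [commutatorElement_def, commutatorElement_def]
      have h4 : b * a = a * b := hB b hb a ha
      have h5 : r * b⁻¹ * r⁻¹ ∈ B := hBn.conj_mem _ (B.inv_mem hb) _
      have h6 : (b * (r * b⁻¹ * r⁻¹)) * a⁻¹ = a⁻¹ * (b * (r * b⁻¹ * r⁻¹)) :=
        hB _ (B.mul_mem hb h5) _ (B.inv_mem ha)
      calc b * (a * r) * b⁻¹ * (a * r)⁻¹ = (b * a) * r * b⁻¹ * r⁻¹ * a⁻¹ := by group
        _ = a * ((b * (r * b⁻¹ * r⁻¹)) * a⁻¹) := by rw [h4]; group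
        _ = b * r * b⁻¹ * r⁻¹ := by rw [h6]; group
    rw [h3]
    exact Subgroup.commutator_mem_commutator hb hr
  obtain ⟨h7, h8⟩ := Pool.Agent.Q7.NR.coprime_decomp B R hB hcopR
  have hBR : B ⊓ R = ⊥ := (Subgroup.disjoint_of_coprime_natCard hcopR).eq_bot
  refine ⟨normalizer (R : Set X), ?_, ?_⟩
  · rw [eq_bot_iff]
    rintro m ⟨hm1, hm2⟩
    have hmB : m ∈ B := Subgroup.commutator_le_left B T hm1
    rw [Subgroup.mem_bot]
    apply h8 m (hle hm1)
    intro r hr
    have h9 : m * r * m⁻¹ ∈ R := (Subgroup.mem_normalizer_iff.mp hm2 r).mp hr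
    have h10 : m * r * m⁻¹ * r⁻¹ ∈ B ⊓ R := by
      refine ⟨?_, R.mul_mem h9 (R.inv_mem hr)⟩
      have h11 : m * r * m⁻¹ * r⁻¹ = m * (r * m⁻¹ * r⁻¹) := by group
      rw [h11]
      exact B.mul_mem hmB (hBn.conj_mem _ (B.inv_mem hmB) _)
    rw [hBR, Subgroup.mem_bot] at h10
    have h12 : m * r * m⁻¹ = r := mul_inv_eq_one.mp h10
    exact (mul_inv_eq_iff_eq_mul.mp h12).symm
  · rw [eq_top_iff]
    intro x _
    obtain ⟨b, hb, hbx⟩ := hfrat x
    have hx : x = b * (b⁻¹ * x) := by group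
    rw [hx]
    refine Subgroup.mul_mem _ ?_ ((le_sup_right : _ ≤ ⁅B, T⁆ ⊔ normalizer (R : Set X)) hbx)
    obtain ⟨m, hm, c, hc, hcr, rfl⟩ := h7 b hb
    refine Subgroup.mul_mem _ ((le_sup_left : _ ≤ ⁅B, T⁆ ⊔ normalizer (R : Set X))
      (Subgroup.commutator_mono le_rfl hRT hm)) ?_
    apply (le_sup_right : _ ≤ ⁅B, T⁆ ⊔ normalizer (R : Set X))
    rw [Subgroup.mem_normalizer_iff]
    intro h
    constructor
    · intro hh
      have h10 : c * h * c⁻¹ = h := by rw [← hcr h hh]; group
      rw [h10]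
      exact hh
    · intro hh
      have h10 := hcr _ hh
      have h11 : h = c * h * c⁻¹ := by
        have h12 : c * h * c⁻¹ * c = c * (c * h * c⁻¹) := h10
        have h13 : c * h = c * (c * h * c⁻¹) := by
          rw [← h12]; group
        exact mul_left_cancel h13
      rw [h11]
      exact hh

end Pool.Agent.Q17.NRP
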