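import Mathlib
import Pool.Agent.Q17.NRP.Basic
import Pool.Agent.Q17.NRP.SZ

/-!
# The key lemma
-/

set_option autoImplicit false

namespace Pool.Agent.Q17.NRP

open Subgroup
open scoped commutatorElement
open Pool.Agent.Y60.DC (CompIn)
open Pool.Agent.Q7.NR

section gen

variable {X : Type} [Group X] [Finite X]

/-- A subgroup which contains all elements of prime power order of `A` contains `A`. -/
lemma le_of_primepow (A C : Subgroup X)
    (h : ∀ r : ℕ, r.Prime → ∀ a ∈ A, (∃ k : ℕ, a ^ r ^ k = 1) → a ∈ C) : A ≤ C := by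
  have h1 : C.subgroupOf A = ⊤ := by
    rw [← Subgroup.index_eq_one]
    by_contra hne
    obtain ⟨l, hl, hd⟩ := Nat.exists_prime_and_dvd hne
    have := Fact.mk hl
    let P : Sylow l A := default
    have h2 : (P : Subgroup A) ≤ C.subgroupOf A := by
      intro s hs
      rw [Subgroup.mem_subgroupOf]
      apply h l hl s s.2
      obtain ⟨k, hk⟩ := P.isPGroup' ⟨s, hs⟩
      exact ⟨k, congrArg (fun x : (P : Subgroup A) => ((x : A) : X)) hk⟩
    exact P.not_dvd_index (hd.trans (Subgroup.index_dvd_of_le h2))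
  exact Subgroup.subgroupOf_eq_top.1 h1

/-- the elements of `A` of order prime to `m` -/
def prc (A : Subgroup X) (hA : ∀ a ∈ A, ∀ b ∈ A, a * b = b * a) (m : ℕ) : Subgroup X where
  carrier := {a | a ∈ A ∧ ∃ n : ℕ, n.Coprime m ∧ a ^ n = 1}
  mul_mem' := by
    rintro a b ⟨ha, n, hn, h1⟩ ⟨hb, l, hl, h2⟩
    refine ⟨A.mul_mem ha hb, n * l, Nat.Coprime.mul_left hn hl, ?_⟩
    rw [(show Commute a b from hA a ha b hb).mul_pow, pow_mul, h1, one_pow, mul_comm n l, pow_mul,
      h2, one_pow, mul_one]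
  one_mem' := ⟨A.one_mem, 1, Nat.coprime_one_left m, one_pow _⟩
  inv_mem' := by
    rintro a ⟨ha, n, hn, h1⟩
    exact ⟨A.inv_mem ha, n, hn, by rw [inv_pow, h1, inv_one]⟩

lemma prc_le {A : Subgroup X} {hA : ∀ a ∈ A, ∀ b ∈ A, a * b = b * a} {m : ℕ} :
    prc A hA m ≤ A := fun _ h => h.1

lemma prc_normal {A : Subgroup X} [hAn : A.Normal] {hA : ∀ a ∈ A, ∀ b ∈ A, a * b = b * a} {m : ℕ} :
    (prc A hA m).Normal := by
  refine ⟨?_⟩
  rintro s ⟨hs, n, hn, h1⟩ g
  refine ⟨hAn.conj_mem _ hs _, n, hn, ?_⟩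
  rw [conj_pow, h1]
  group

lemma prc_coprime {A : Subgroup X} {hA : ∀ a ∈ A, ∀ b ∈ A, a * b = b * a} {m : ℕ} :
    (Nat.card (prc A hA m)).Coprime m := by
  rw [Nat.coprime_iff_gcd_eq_one]
  by_contra hne
  obtain ⟨l, hl, hd⟩ := Nat.exists_prime_and_dvd hne
  have := Fact.mk hl
  obtain ⟨x, hx⟩ := exists_prime_orderOf_dvd_card' (G := prc A hA m) l (hd.trans (Nat.gcd_dvd_left _ _))
  obtain ⟨-, n, hn, h1⟩ := x.2
  have h2 : x ^ n = 1 := Subtype.ext h1
  have h3 := orderOf_dvd_of_pow_eq_one h2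
  rw [hx] at h3
  exact hl.one_lt.ne' (Nat.eq_one_of_dvd_coprimes hn h3 (hd.trans (Nat.gcd_dvd_right _ _)))

lemma prc_index {A T : Subgroup X} {hA : ∀ a ∈ A, ∀ b ∈ A, a * b = b * a} (hAT : A ≤ T) :
    (Nat.card (prc A hA (A.relIndex T))).Coprime ((prc A hA (A.relIndex T)).subgroupOf T).index := by
  set B := prc A hA (A.relIndex T) with hB
  have h0 : (Nat.card B).Coprime (A.relIndex T) := prc_coprime
  have h1 : B.relIndex A * A.relIndex T = B.relIndex T :=
    Subgroup.relIndex_mul_relIndex _ _ _ prc_le hAT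
  change (Nat.card B).Coprime (B.relIndex T)
  rw [← h1]
  refine Nat.Coprime.mul_right ?_ h0
  rw [Nat.coprime_iff_gcd_eq_one]
  by_contra hne
  obtain ⟨l, hl, hd⟩ := Nat.exists_prime_and_dvd hne
  have := Fact.mk hl
  have hlB : l ∣ Nat.card B := hd.trans (Nat.gcd_dvd_left _ _)
  have hlA : l ∣ B.relIndex A := hd.trans (Nat.gcd_dvd_right _ _)
  have hlm : l.Coprime (A.relIndex T) := Nat.Coprime.coprime_dvd_left hlB h0
  let P : Sylow l A := default
  have h2 : (P : Subgroup A) ≤ B.subgroupOf A := by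
    intro s hs
    rw [Subgroup.mem_subgroupOf]
    obtain ⟨k, hk⟩ := P.isPGroup' ⟨s, hs⟩
    exact ⟨s.2, l ^ k, hlm.pow_left k, congrArg (fun x : (P : Subgroup A) => ((x : A) : X)) hk⟩
  exact P.not_dvd_index (hlA.trans (Subgroup.index_dvd_of_le h2))

/-- the step for abelian nilpotent residuals -/
lemma exists_compl (A N : Subgroup X) [hAn : A.Normal] [hNn : N.Normal]
    (hA : ∀ a ∈ A, ∀ b ∈ A, a * b = b * a) (hAN : A ≤ N) (hperf : A ≤ ⁅A, N⁆) (hPN : PN N A)
    (hne : A ≠ ⊥) : ∃ V : Subgroup X, V.Normal ∧ V ≤ A ∧ V ≠ ⊥ ∧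
      ∃ H : Subgroup X, V ⊓ H = ⊥ ∧ V ⊔ H = ⊤ := by
  obtain ⟨q, hq, hM⟩ := exists_prime A N hA hAN hperf hPN hne
  have := Fact.mk hq
  have i1 : (pr A hA q).Normal := pr_normal
  have i2 : (tq N A hPN q hq).Normal := tq_normal
  have hBA : pr A hA q ≤ A := fun x hx => hx.1
  obtain ⟨H, h1, h2⟩ := split_step A (tq N A hPN q hq) (pr A hA q) hA
    (fun a ha => ⟨hAN ha, 0, by simpa using ha⟩) (fun t ht => ht.2) hBA (pr_coprime hq)
    (fun a ha => pr_decomp hq ha)
  exact ⟨⁅pr A hA q, tq N A hPN q hq⁆, inferInstance,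
    (Subgroup.commutator_le_left _ _).trans hBA, hM, H, h1, h2⟩

/-- finite commutative quotients: `T` is commutative if `T / A` is, `A` is central in `T`, the
`p`-elements of `T` are trivial and the other Sylow subgroups are abelian -/
lemma comm_of_central (p : ℕ) (T A : Subgroup X) (hTA : ⁅T, T⁆ ≤ A)
    (hcent : ∀ t ∈ T, ∀ a ∈ A, a * t = t * a) (hAb : AbR p T)
    (hnp : Group.IsNilpotent T → ∀ t ∈ T, (∃ k : ℕ, t ^ p ^ k = 1) → t = 1) :
    ∀ a ∈ T, ∀ b ∈ T, a * b = b * a := by
  have hnil : Group.IsNilpotent T := by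
    rw [Subgroup.isNilpotent_iff_lowerCentralSeries]
    refine ⟨2, ?_⟩
    rw [Subgroup.lowerCentralSeries_succ, Subgroup.lowerCentralSeries_succ,
      Subgroup.lowerCentralSeries_zero, eq_bot_iff]
    refine (Subgroup.commutator_mono hTA le_rfl).trans ?_
    rw [Subgroup.commutator_le]
    intro a ha t ht
    rw [Subgroup.mem_bot, commutatorElement_eq_one_iff_mul_comm]
    exact hcent t ht a ha
  have h2 : ∀ (l : ℕ) [Fact l.Prime] (P : Sylow l T), ∀ x ∈ P, ∀ y ∈ P, x * y = y * x := by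
    intro l hl P x hx y hy
    by_cases hlp : l = p
    · subst hlp
      have h3 : ∀ z ∈ P, z = 1 := by
        intro z hz
        apply Subtype.ext
        refine hnp hnil z z.2 ?_
        obtain ⟨k, hk⟩ := P.isPGroup' ⟨z, hz⟩
        exact ⟨k, congrArg (fun x : (P : Subgroup T) => ((x : T) : X)) hk⟩
      rw [h3 x hx, h3 y hy]
    · exact hAb.type l hl.out hlp (P : Subgroup T) P.isPGroup' x hx y hy
  intro a ha b hb
  exact congrArg Subtype.val (comm_of_nilp_ab hnil h2 ⟨a, ha⟩ ⟨b, hb⟩)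

end gen

section key

variable {S : ∀ (T : Type) [Group T], Prop}

/-- the groups in `S` and the groups of prime order -/
def SP (S : ∀ (T : Type) [Group T], Prop) (T : Type) [Group T] : Prop :=
  S T ∨ (Nat.card T).Prime

lemma SP.iso (hiso : ∀ (T T' : Type) [Group T] [Group T'], Nonempty (T ≃* T') → S T → S T')
    (T T' : Type) [Group T] [Group T'] (h : Nonempty (T ≃* T')) (h1 : SP S T) : SP S T' := by
  rcases h1 with h1 | h1
  · exact Or.inl (hiso T T' h h1)
  · obtain ⟨e⟩ := h
    exact Or.inr (by rw [← Nat.card_congr e.toEquiv]; exact h1)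

lemma SP.simple (hsim : ∀ (T : Type) [Group T], S T → IsSimpleGroup T)
    (T : Type) [Group T] (h1 : SP S T) : IsSimpleGroup T := by
  rcases h1 with h1 | h1
  · exact hsim T h1
  · have := Fact.mk h1
    exact isSimpleGroup_of_prime_card rfl

lemma compIn_normal (hiso : ∀ (T T' : Type) [Group T] [Group T'], Nonempty (T ≃* T') → S T → S T')
    (hsim : ∀ (T : Type) [Group T], S T → IsSimpleGroup T) {X : Type} [Group X] {V N : Subgroup X}
    [hV : V.Normal] (hVN : V ≤ N) (h : CompIn S N) : CompIn S V := by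
  refine Pool.Agent.Y419.DC.sub hiso hsim h V (Subgroup.inclusion hVN)
    (Subgroup.inclusion_injective hVN) ?_
  constructor
  rintro _ ⟨y, rfl⟩ g
  exact ⟨⟨g.1 * y.1 * g.1⁻¹, hV.conj_mem _ y.2 _⟩, Subtype.ext rfl⟩

lemma compIn_map (hiso : ∀ (T T' : Type) [Group T] [Group T'], Nonempty (T ≃* T') → S T → S T')
    (hsim : ∀ (T : Type) [Group T], S T → IsSimpleGroup T) {X Y : Type} [Group X] [Group Y]
    (f : X →* Y) {N : Subgroup X} (h : CompIn S N) : CompIn S (N.map f) :=
  Pool.Agent.Y419.DC.quot hiso hsim h _ (f.subgroupMap N) (f.subgroupMap_surjective N)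

theorem key (p : ℕ) [hp : Fact p.Prime]
    (hiso : ∀ (T T' : Type) [Group T] [Group T'], Nonempty (T ≃* T') → S T → S T')
    (hsim : ∀ (T : Type) [Group T], S T → IsSimpleGroup T)
    (hpS : ∀ (T : Type) [Group T], Nat.card T = p → S T)
    {X : Type} [Group X] [Finite X] (N : Subgroup X) [hN : N.Normal] (hAb : AbR p N)
    (hC : CompIn (SP S) N) (hne : Mp p N ≠ ⊥) :
    ∃ V : Subgroup X, V.Normal ∧ V ≤ Mp p N ∧ V ≠ ⊥ ∧ (CompIn S V ∨
      ((∀ a ∈ V, ∀ b ∈ V, a * b = b * a) ∧ ∃ H : Subgroup X, V ⊓ H = ⊥ ∧ V ⊔ H = ⊤)) := by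
  classical
  by_contra hcon
  have hno : ∀ V : Subgroup X, V.Normal → V ≤ Mp p N → CompIn S V → V = ⊥ := by
    intro V h1 h2 h3
    by_contra h4
    exact hcon ⟨V, h1, h2, h4, Or.inl h3⟩
  have hns : ∀ V : Subgroup X, V.Normal → V ≤ Mp p N → (∀ a ∈ V, ∀ b ∈ V, a * b = b * a) →
      (∃ H : Subgroup X, V ⊓ H = ⊥ ∧ V ⊔ H = ⊤) → V = ⊥ := by
    intro V h1 h2 h3 h5
    by_contra h4
    exact hcon ⟨V, h1, h2, h4, Or.inr ⟨h3, h5⟩⟩
  have hMN : Mp p N ≤ N := Mp_le p N
  -- no normal `p`-subgroups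
  have hF1 : ∀ P : Subgroup X, P.Normal → P ≤ Mp p N → IsPGroup p P → P = ⊥ := by
    intro P h1 h2 h3
    obtain ⟨n, hn⟩ := IsPGroup.iff_card.1 h3
    exact hno P h1 h2 (compIn_pgroup p hpS n P hn)
  -- the subgroup `A`
  obtain ⟨A, ⟨hAn, hAM, hA⟩, hAmax⟩ : ∃ A : Subgroup X,
      (A.Normal ∧ A ≤ Mp p N ∧ ∀ a ∈ A, ∀ b ∈ A, a * b = b * a) ∧
      ∀ B : Subgroup X, (B.Normal ∧ B ≤ Mp p N ∧ ∀ a ∈ B, ∀ b ∈ B, a * b = b * a) →
        A ≤ B → A = B := by
    have hfin : Finite (Subgroup X) := inferInstance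
    have h0 : ((⊥ : Subgroup X).Normal ∧ (⊥ : Subgroup X) ≤ Mp p N ∧
        ∀ a ∈ (⊥ : Subgroup X), ∀ b ∈ (⊥ : Subgroup X), a * b = b * a) := by
      refine ⟨inferInstance, bot_le, ?_⟩
      intro a ha b hb
      rw [Subgroup.mem_bot.1 ha, Subgroup.mem_bot.1 hb]
    obtain ⟨A, -, hA⟩ := (Set.toFinite {B : Subgroup X | B.Normal ∧ B ≤ Mp p N ∧
      ∀ a ∈ B, ∀ b ∈ B, a * b = b * a}).exists_le_maximal h0
    exact ⟨A, hA.prop, fun B hB hAB => hA.eq_of_le hB hAB⟩
  -- the `p`-part of an abelian or nilpotent normal subgroup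
  have hpart : ∀ T : Subgroup X, T.Normal → T ≤ Mp p N → Group.IsNilpotent T →
      ∀ t ∈ T, (∃ k : ℕ, t ^ p ^ k = 1) → t = 1 := by
    intro T hTn hTM hTnil t ht hk
    let P : Subgroup X :=
      { carrier := {x | x ∈ T ∧ ∃ k : ℕ, x ^ p ^ k = 1}
        mul_mem' := by
          rintro a b ⟨ha, k, hk⟩ ⟨hb, l, hl⟩
          refine ⟨T.mul_mem ha hb, ?_⟩
          obtain ⟨i, hi⟩ := nilp_mul hTnil hp.out (x := ⟨a, ha⟩) (y := ⟨b, hb⟩)
            ⟨k, Subtype.ext hk⟩ ⟨l, Subtype.ext hl⟩
          exact ⟨i, congrArg Subtype.val hi⟩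
        one_mem' := ⟨T.one_mem, 0, one_pow _⟩
        inv_mem' := by
          rintro a ⟨ha, k, hk⟩
          exact ⟨T.inv_mem ha, k, by rw [inv_pow, hk, inv_one]⟩ }
    have hPT : P ≤ T := fun x hx => hx.1
    have hPn : P.Normal := by
      refine ⟨?_⟩
      rintro x ⟨hx, k, hk⟩ g
      refine ⟨hTn.conj_mem _ hx _, k, ?_⟩
      rw [conj_pow, hk]
      group
    have hPp : IsPGroup p P := by
      rintro ⟨x, hx, k, hk⟩
      exact ⟨k, Subtype.ext hk⟩
    have h1 := hF1 P hPn (hPT.trans hTM) hPp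
    have h2 : t ∈ P := ⟨ht, hk⟩
    rw [h1] at h2
    exact Subgroup.mem_bot.1 h2
  have hnilA : Group.IsNilpotent A := by
    have : IsMulCommutative A := ⟨⟨fun a b => Subtype.ext (hA a a.2 b b.2)⟩⟩
    rw [Subgroup.isNilpotent_iff_lowerCentralSeries]
    refine ⟨1, ?_⟩
    rw [Subgroup.lowerCentralSeries_succ, Subgroup.lowerCentralSeries_zero, eq_bot_iff,
      Subgroup.commutator_le]
    intro a ha t ht
    rw [Subgroup.mem_bot, commutatorElement_eq_one_iff_mul_comm]
    exact hA a ha t ht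
  have hApart : ∀ t ∈ A, (∃ k : ℕ, t ^ p ^ k = 1) → t = 1 := hpart A hAn hAM hnilA
  -- the centraliser of `A`
  set D : Subgroup X := Mp p N ⊓ Subgroup.centralizer (A : Set X) with hD
  have hDn : D.Normal := inferInstance
  have hDM : D ≤ Mp p N := inf_le_left
  have hDA : ∀ t ∈ D, ∀ a ∈ A, a * t = t * a := fun t ht a ha =>
    Subgroup.mem_centralizer_iff.mp ht.2 a ha
  have hAD : A ≤ D := fun a ha => ⟨hAM ha, Subgroup.mem_centralizer_iff.mpr fun b hb => hA b hb a ha⟩
  have hC1 : D ≤ A := by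
    by_contra hDnA
    have hDb : D.map (QuotientGroup.mk' A) ≠ ⊥ := by
      rw [Ne, Subgroup.map_eq_bot_iff, QuotientGroup.ker_mk']
      exact hDnA
    have hsur := QuotientGroup.mk'_surjective A
    have hDmn : (D.map (QuotientGroup.mk' A)).Normal := hDn.map _ hsur
    have hDc : CompIn (SP S) (D.map (QuotientGroup.mk' A)) :=
      compIn_map (SP.iso hiso) (SP.simple hsim) _
        (compIn_normal (SP.iso hiso) (SP.simple hsim) (hDM.trans hMN) hC)
    obtain ⟨T', hT'n, hT'D, hT'b, ⟨T₀, iT₀, m, hT₀, ⟨e⟩⟩, -⟩ :=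
      Pool.Agent.Y419.DC.cf_holds (SP S) (SP.iso hiso) (SP.simple hsim) (X ⧸ A)
        (D.map (QuotientGroup.mk' A)) hDb hDc
    set T : Subgroup X := T'.comap (QuotientGroup.mk' A) with hT
    have hTn : T.Normal := inferInstance
    have hAT : A ≤ T := by
      intro a ha
      rw [hT, Subgroup.mem_comap, show QuotientGroup.mk' A a = 1 from (QuotientGroup.eq_one_iff a).2 ha]
      exact T'.one_mem
    have hTD : T ≤ D := by
      rw [hT]
      refine (Subgroup.comap_mono hT'D).trans ?_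
      rw [Subgroup.comap_map_eq, QuotientGroup.ker_mk']
      exact sup_le le_rfl hAD
    have hTM : T ≤ Mp p N := hTD.trans hDM
    have hTmap : T.map (QuotientGroup.mk' A) = T' :=
      Subgroup.map_comap_eq_self_of_surjective hsur T'
    have hTA : ∀ t ∈ T, ∀ a ∈ A, a * t = t * a := fun t ht => hDA t (hTD ht)
    have hTneA : A ≠ T := by
      intro h
      apply hT'b
      rw [← hTmap, ← h, Subgroup.map_eq_bot_iff, QuotientGroup.ker_mk']
    by_cases hcomm : ∀ a b : T₀, a * b = b * a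
    · -- the abelian case
      have hTT : ⁅T, T⁆ ≤ A := by
        rw [Subgroup.commutator_le]
        intro s hs t ht
        have h1 : ∀ x y : T', x * y = y * x := by
          intro x y
          apply e.injective
          rw [map_mul, map_mul]
          funext i
          exact hcomm _ _
        have h2 := congrArg Subtype.val (h1 ⟨QuotientGroup.mk' A s, hs⟩ ⟨QuotientGroup.mk' A t, ht⟩)
        have h3 : QuotientGroup.mk' A ⁅s, t⁆ = 1 := by
          rw [map_commutatorElement, commutatorElement_eq_one_iff_mul_comm]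
          exact h2
        exact (QuotientGroup.eq_one_iff _).1 h3
      have h4 := comm_of_central p T A hTT hTA (hAb.mono (hTM.trans hMN)) (hpart T hTn hTM)
      exact hTneA (hAmax T ⟨hTn, hTM, h4⟩ hAT)
    · -- the nonabelian case
      have hST₀ : S T₀ := by
        rcases hT₀ with h | h
        · exact h
        · exfalso
          apply hcomm
          have := Fact.mk h
          have hcyc : IsCyclic T₀ := isCyclic_of_prime_card rfl
          intro a b
          exact (IsCyclic.isMulCommutative (α := T₀)).is_comm.comm a b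
      have hsT₀ : IsSimpleGroup T₀ := hsim T₀ hST₀
      have hperf₀ : commutator T₀ = ⊤ := by
        rcases hsT₀.eq_bot_or_eq_top_of_normal (commutator T₀) inferInstance with h | h
        · exfalso
          apply hcomm
          intro a b
          have h1 : ⁅a, b⁆ ∈ commutator T₀ :=
            Subgroup.commutator_mem_commutator (Subgroup.mem_top a) (Subgroup.mem_top b)
          rw [h, Subgroup.mem_bot, commutatorElement_eq_one_iff_mul_comm] at h1
          exact h1
        · exact h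
      have hperf : commutator (Fin m → T₀) = ⊤ := by
        have h1 := Subgroup.commutator_pi_pi_of_finite (fun _ : Fin m => (⊤ : Subgroup T₀))
          (fun _ : Fin m => (⊤ : Subgroup T₀))
        rw [Subgroup.pi_top, show (fun _ : Fin m => ⁅(⊤ : Subgroup T₀), (⊤ : Subgroup T₀)⁆) =
          fun _ => (⊤ : Subgroup T₀) from funext fun _ => hperf₀, Subgroup.pi_top] at h1
        exact h1
      have hperf' : commutator T' = ⊤ := by
        have h1 : (commutator (Fin m → T₀)).map e.symm.toMonoidHom = commutator T' := by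
          rw [commutator_def, Subgroup.map_commutator, ← MonoidHom.range_eq_map,
            MonoidHom.range_eq_top.2 e.symm.surjective, commutator_def]
        rw [← h1, hperf, ← MonoidHom.range_eq_map, MonoidHom.range_eq_top.2 e.symm.surjective]
      have hT'T' : ⁅T', T'⁆ = T' := by
        rw [← Subgroup.map_subtype_commutator, hperf', ← MonoidHom.range_eq_map,
          Subgroup.range_subtype]
      set E : Subgroup X := ⁅T, T⁆ with hE
      have hEn : E.Normal := inferInstance
      have hET : E ≤ T := Subgroup.commutator_le_self T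
      have hEmap : E.map (QuotientGroup.mk' A) = T' := by
        rw [hE, Subgroup.map_commutator, hTmap, hT'T']
      have hEA : E ⊓ A ≤ ⊥ := by
        apply le_of_primepow
        intro r hr a ha hk
        rw [Subgroup.mem_bot]
        by_cases hrp : r = p
        · subst hrp
          exact hApart a ha.2 hk
        · obtain ⟨k, hk⟩ := hk
          have := Fact.mk hr
          have hz := central_inter (Y := T) r
            ((hAb.mono (hTM.trans hMN)).type r hr hrp)
            ⟨a, hAT ha.2⟩ (fun y => Subtype.ext (hTA y y.2 a ha.2)) (by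
              have h1 : a ∈ (commutator T).map T.subtype := by
                rw [Subgroup.map_subtype_commutator]
                exact ha.1
              obtain ⟨w, hw, hwa⟩ := h1
              rwa [← (Subtype.ext hwa : w = ⟨a, hAT ha.2⟩)]) k (Subtype.ext hk)
          exact congrArg Subtype.val hz
      have hmem : ∀ x : E, (QuotientGroup.mk' A) (x : X) ∈ T' := by
        intro x
        rw [← hEmap]
        exact Subgroup.mem_map_of_mem _ x.2
      let φ : E →* T' := ((QuotientGroup.mk' A).comp E.subtype).codRestrict T' hmem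
      have hφ : Function.Bijective φ := by
        constructor
        · rw [injective_iff_map_eq_one]
          intro x hx
          have h1 : (QuotientGroup.mk' A) (x : X) = 1 := congrArg Subtype.val hx
          have h2 : (x : X) ∈ E ⊓ A := ⟨x.2, (QuotientGroup.eq_one_iff _).1 h1⟩
          exact Subtype.ext (Subgroup.mem_bot.1 (hEA h2))
        · rintro ⟨y, hy⟩
          have hy' := hy
          rw [← hEmap] at hy'
          obtain ⟨x, hx, hxy⟩ := hy'
          exact ⟨⟨x, hx⟩, Subtype.ext hxy⟩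
      let ψ := MulEquiv.ofBijective φ hφ
      have hEc : CompIn S E := Pool.Agent.Y419.DC.quot hiso hsim (compIn_pi hiso hsim T₀ hST₀ m) E
        (ψ.symm.toMonoidHom.comp e.symm.toMonoidHom)
        (ψ.symm.surjective.comp e.symm.surjective)
      have hEb := hno E hEn (hET.trans hTM) hEc
      apply hT'b
      rw [← hEmap, hEb, Subgroup.map_bot]
  by_cases hMA : Mp p N ≤ A
  · -- the case `A = M`
    have hAeq : A = Mp p N := le_antisymm hAM hMA
    have hpN : ∀ t ∈ N, (∃ k : ℕ, t ^ p ^ k = 1) → t = 1 := by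
      intro t ht hk
      refine hApart t (hMA ⟨ht, ?_⟩) hk
      obtain ⟨k, hk⟩ := hk
      exact ⟨k, by rw [hk]; exact Subgroup.one_mem _⟩
    have hsyl : ∀ (l : ℕ) (P : Subgroup X), l.Prime → P ≤ N → IsPGroup l P →
        ∀ x ∈ P, ∀ y ∈ P, x * y = y * x := by
      intro l P hl hPN hP x hx y hy
      by_cases hlp : l = p
      · subst hlp
        have h3 : ∀ z ∈ P, z = 1 := by
          intro z hz
          obtain ⟨k, hk⟩ := hP ⟨z, hz⟩
          exact hpN z (hPN hz) ⟨k, congrArg Subtype.val hk⟩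
        rw [h3 x hx, h3 y hy]
      · exact hAb l hl hlp P hPN hP x hx y hy
    have hnres : nres N = ⁅N, N⁆ := nres_of_syl N hsyl
    have hMN' : Mp p N = ⁅N, N⁆ := by
      apply le_antisymm _ (comm_le_Mp p N)
      intro x hx
      have hxA : x ∈ A := hMA hx
      obtain ⟨hxN, k, hk⟩ := hx
      -- the order of `x` is prime to `p`
      have hcop : (orderOf x).Coprime (p ^ k) := by
        apply Nat.Coprime.pow_right
        rw [Nat.coprime_comm, Nat.Prime.coprime_iff_not_dvd hp.out]
        intro hd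
        obtain ⟨c, hc⟩ := hd
        have h1 : (x ^ c) ^ p ^ 1 = 1 := by
          rw [pow_one, ← pow_mul, mul_comm, ← hc, pow_orderOf_eq_one]
        have h2 := hpN (x ^ c) (N.pow_mem hxN c) ⟨1, h1⟩
        have h3 := orderOf_dvd_of_pow_eq_one h2
        have h4 : 0 < orderOf x := orderOf_pos x
        have h5 : 0 < c := Nat.pos_of_ne_zero (by rintro rfl; omega)
        have h6 := Nat.le_of_dvd h5 h3
        have h7 := hp.out.two_le
        nlinarith
      obtain ⟨b, hb⟩ := exists_pow_eq_self_of_coprime hcop.symm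
      rw [← hb]
      exact Subgroup.pow_mem _ hk b
    have hAnres : A = nres N := by rw [hAeq, hMN', hnres]
    have hAne : A ≠ ⊥ := by rw [hAeq]; exact hne
    obtain ⟨V, h1, h2, h3, h4⟩ := exists_compl A N hA (hAM.trans hMN)
      (by rw [hAnres]; exact nres_comm N) (by rw [hAnres]; exact nres_PN N) hAne
    exact h3 (hns V h1 (h2.trans hAM) (fun a ha b hb => hA a (h2 ha) b (h2 hb)) h4)
  · -- the case `A < M`
    obtain ⟨T, ⟨hTn, hTM, hAT, hTnA⟩, hTmin⟩ : ∃ T : Subgroup X,
        (T.Normal ∧ T ≤ Mp p N ∧ A ≤ T ∧ ¬ T ≤ A) ∧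
        ∀ B : Subgroup X, (B.Normal ∧ B ≤ Mp p N ∧ A ≤ B ∧ ¬ B ≤ A) → B ≤ T → T ≤ B := by
      have h0 : ((Mp p N).Normal ∧ Mp p N ≤ Mp p N ∧ A ≤ Mp p N ∧ ¬ Mp p N ≤ A) :=
        ⟨inferInstance, le_rfl, hAM, hMA⟩
      obtain ⟨T, -, hT⟩ := (Set.toFinite {B : Subgroup X | B.Normal ∧ B ≤ Mp p N ∧ A ≤ B ∧
        ¬ B ≤ A}).exists_le_minimal h0
      exact ⟨T, hT.prop, fun B hB hBT => hT.le_of_le hB hBT⟩
    set B : Subgroup X := prc A hA (A.relIndex T) with hB
    have hBn : B.Normal := prc_normal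
    have hBA : B ≤ A := prc_le
    obtain ⟨H, hH1, hH2⟩ := split_coprime B T (fun a ha b hb => hA a (hBA ha) b (hBA hb))
      (hBA.trans hAT) (prc_index hAT)
    have hVB : ⁅B, T⁆ ≤ B := Subgroup.commutator_le_left _ _
    have hVb : ⁅B, T⁆ = ⊥ := hns ⁅B, T⁆ inferInstance ((hVB.trans hBA).trans hAM)
      (fun a ha b hb => hA a (hBA (hVB ha)) b (hBA (hVB hb))) ⟨H, hH1, hH2⟩
    have hAC : A ≤ Subgroup.centralizer (T : Set X) := by
      apply le_of_primepow
      rintro r hr a ha ⟨k, hk⟩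
      have := Fact.mk hr
      rw [Subgroup.mem_centralizer_iff]
      by_cases hrT : r ∣ A.relIndex T
      · by_cases hrp : r = p
        · subst hrp
          rw [hApart a ha ⟨k, hk⟩]
          intro t _
          rw [mul_one, one_mul]
        · let Ar : Subgroup X :=
            { carrier := {x | x ∈ A ∧ ∃ k : ℕ, x ^ r ^ k = 1}
              mul_mem' := by
                rintro a b ⟨ha, k, hk⟩ ⟨hb, l, hl⟩
                refine ⟨A.mul_mem ha hb, ?_⟩
                obtain ⟨i, hi⟩ := nilp_mul hnilA hr (x := ⟨a, ha⟩) (y := ⟨b, hb⟩)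
                  ⟨k, Subtype.ext hk⟩ ⟨l, Subtype.ext hl⟩
                exact ⟨i, congrArg Subtype.val hi⟩
              one_mem' := ⟨A.one_mem, 0, one_pow _⟩
              inv_mem' := by
                rintro a ⟨ha, k, hk⟩
                exact ⟨A.inv_mem ha, k, by rw [inv_pow, hk, inv_one]⟩ }
          have hArA : Ar ≤ A := fun x hx => hx.1
          have hArn : Ar.Normal := by
            refine ⟨?_⟩
            rintro x ⟨hx, k, hk⟩ g
            refine ⟨hAn.conj_mem _ hx _, k, ?_⟩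
            rw [conj_pow, hk]
            group
          have hArr : IsPGroup r Ar := by
            rintro ⟨x, hx, k, hk⟩
            exact ⟨k, Subtype.ext hk⟩
          have hCn : (T ⊓ Subgroup.centralizer (Ar : Set X)).Normal := inferInstance
          have hAleC : A ≤ T ⊓ Subgroup.centralizer (Ar : Set X) := fun x hx =>
            ⟨hAT hx, Subgroup.mem_centralizer_iff.mpr fun y hy => hA y (hArA hy) x hx⟩
          have hCnA : ¬ (T ⊓ Subgroup.centralizer (Ar : Set X)) ≤ A := by
            intro hle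
            let P : Sylow r T := default
            have h2 : (P : Subgroup T) ≤ A.subgroupOf T := by
              intro s hs
              rw [Subgroup.mem_subgroupOf]
              obtain ⟨k, hk⟩ := P.isPGroup' ⟨s, hs⟩
              have hk' : (s : X) ^ r ^ k = 1 :=
                congrArg (fun x : (P : Subgroup T) => ((x : T) : X)) hk
              refine hle ⟨s.2, Subgroup.mem_centralizer_iff.mpr fun y hy => ?_⟩
              exact hAb.comm hr hrp Ar ((hArA.trans hAM).trans hMN) hArr hy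
                ((hTM.trans hMN) s.2) hk'
            exact P.not_dvd_index (hrT.trans (Subgroup.index_dvd_of_le h2))
          have hTC := hTmin _ ⟨hCn, inf_le_left.trans hTM, hAleC, hCnA⟩ inf_le_left
          intro t ht
          exact (Subgroup.mem_centralizer_iff.mp (hTC ht).2 a ⟨ha, k, hk⟩).symm
      · intro t ht
        have haB : a ∈ B := ⟨ha, r ^ k,
          ((Nat.Prime.coprime_iff_not_dvd hr).2 hrT).pow_left k, hk⟩
        have h1 : ⁅a, t⁆ ∈ ⁅B, T⁆ := Subgroup.commutator_mem_commutator haB ht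
        rw [hVb, Subgroup.mem_bot, commutatorElement_eq_one_iff_mul_comm] at h1
        exact h1.symm
    apply hTnA
    refine le_trans ?_ hC1
    intro t ht
    refine ⟨hTM ht, Subgroup.mem_centralizer_iff.mpr fun a ha => ?_⟩
    exact (Subgroup.mem_centralizer_iff.mp (hAC ha) t ht).symm

end key

end Pool.Agent.Q17.NRP
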