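import Mathlib
import Pool.Agent.Q17.NRP.Key
import Pool.Agent.Y60.DCF.Main

/-!
# Kernels with abelian Sylow subgroups in characteristic `p`
-/

set_option autoImplicit false

namespace Pool.Agent.Q17.NRP

open Subgroup
open scoped commutatorElement
open Pool.Agent.Y60.DC (CompIn FacC ClsC)
open Pool.Agent.Q7.NR

lemma card_map_lt {X : Type} [Group X] [Finite X] (N V : Subgroup X) [V.Normal] (hVN : V ≤ N)
    (hne : V ≠ ⊥) : Nat.card (N.map (QuotientGroup.mk' V)) < Nat.card N := by
  have h3 : Nat.card (N.map (QuotientGroup.mk' V)) * Nat.card (V.subgroupOf N) = Nat.card N := by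
    have h4 : Nat.card (N.map (QuotientGroup.mk' V)) = Nat.card (N ⧸ V.subgroupOf N) := by
      have h5 : ((QuotientGroup.mk' V).comp N.subtype).ker = V.subgroupOf N := by
        ext x
        rw [MonoidHom.mem_ker, Subgroup.mem_subgroupOf]
        exact QuotientGroup.eq_one_iff (x : X)
      have h6 := Nat.card_congr
        (QuotientGroup.quotientKerEquivRange ((QuotientGroup.mk' V).comp N.subtype)).toEquiv
      have h7 : ((QuotientGroup.mk' V).comp N.subtype).range = N.map (QuotientGroup.mk' V) := by
        rw [MonoidHom.range_comp, Subgroup.range_subtype]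
      rw [h7] at h6
      rw [← h6]
      congr 1
      rw [h5]
    rw [h4]
    exact (Subgroup.card_eq_card_quotient_mul_card_subgroup (V.subgroupOf N)).symm
  have h4 : 1 < Nat.card (V.subgroupOf N) := by
    rw [Nat.card_congr (Subgroup.subgroupOfEquivOfLe hVN).toEquiv]
    have : Nontrivial V := (Subgroup.nontrivial_iff_ne_bot V).mpr hne
    exact Finite.one_lt_card
  have h5 : 0 < Nat.card (N.map (QuotientGroup.mk' V)) := Nat.card_pos
  nlinarith

theorem cls_Mp (p : ℕ) [hp : Fact p.Prime] (K : Type) [Field K] : ∀ (n : ℕ) (X : Type) [Group X]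
    [Finite X] (N : Subgroup X) [N.Normal], Nat.card N = n → AbR p N →
    CompIn (SP (fun (T : Type) [Group T] => FacC p T)) N →
    ∀ (W : Type) [Group W] (f : X →* W), Function.Surjective f → f.ker = Mp p N → ClsC p K f := by
  intro n
  induction n using Nat.strong_induction_on with
  | _ n ih =>
  intro X _ _ N hNn hn hAb hC W _ f hf hfk
  by_cases hne : Mp p N = ⊥
  · exact ClsC.base f (cls_of_bij f hf (hfk.trans hne))
  have hiso : ∀ (T T' : Type) [Group T] [Group T'], Nonempty (T ≃* T') → FacC p T → FacC p T' :=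
    fun T T' _ _ h h' => FacC.iso p T T' h h'
  have hsim : ∀ (T : Type) [Group T], FacC p T → IsSimpleGroup T := fun T _ h => FacC.simple p T h
  obtain ⟨V, hVn, hVM, hVne, hV⟩ := key p hiso hsim
    (fun T _ h => Or.inl (Or.inl (Or.inl h))) N hAb hC hne
  obtain ⟨f', hf', hfk', hff⟩ := exists_quot f hf V (by rw [hfk]; exact hVM)
  rw [hff]
  have hsur := QuotientGroup.mk'_surjective V
  have hker : (QuotientGroup.mk' V).ker = V := QuotientGroup.ker_mk' V
  refine ClsC.comp f' (QuotientGroup.mk' V) ?_ ?_
  · have i1 : (N.map (QuotientGroup.mk' V)).Normal := hNn.map _ hsur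
    refine ih _ ?_ (X ⧸ V) (N.map (QuotientGroup.mk' V)) rfl (hAb.map _)
      (compIn_map (SP.iso hiso) (SP.simple hsim) _ hC) W f' hf' ?_
    · rw [← hn]
      exact card_map_lt N V (hVM.trans (Mp_le p N)) hVne
    · rw [hfk', hfk]
      exact Mp_map _ (by rw [hker]; exact hVM)
  · rcases hV with hV | ⟨hVc, H, h1, h2⟩
    · refine ClsC.fac _ hsur inferInstance ?_
      exact Pool.Agent.Y419.DC.quot hiso hsim hV _
        (MulEquiv.subgroupCongr hker.symm).toMonoidHom (MulEquiv.subgroupCongr hker.symm).surjective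
    · exact ClsC.base _ (cls_compl V H hVc h1 h2)

end Pool.Agent.Q17.NRP
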