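import Mathlib
import Pool.Agent.Q17.NRP.Main

/-!
# Weakly solvable embedding problems: fibre products
-/

set_option autoImplicit false

namespace Pool.Agent.Q17.NRP

open Subgroup
open scoped commutatorElement
open Pool.Agent.Y60.DC (CompIn FacC ClsC)
open Pool.Agent.TH444.TW (Cls)

section fp

variable {X W W' : Type} [Group X] [Group W] [Group W'] (α : X →* W) (r : W' →* W)

/-- the fibre product -/
def FP : Subgroup (X × W') :=
  (α.comp (MonoidHom.fst X W')).eqLocus (r.comp (MonoidHom.snd X W'))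

variable {α r}

theorem mem_FP {x : X × W'} : x ∈ FP α r ↔ α x.1 = r x.2 := Iff.rfl

variable (α r)

/-- the projections of the fibre product -/
def pr1 : FP α r →* X := (MonoidHom.fst X W').comp (FP α r).subtype

/-- the projections of the fibre product -/
def pr2 : FP α r →* W' := (MonoidHom.snd X W').comp (FP α r).subtype

theorem pr1_surj (hr : Function.Surjective r) : Function.Surjective (pr1 α r) := by
  intro x
  obtain ⟨w, hw⟩ := hr (α x)
  exact ⟨⟨(x, w), hw.symm⟩, rfl⟩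

theorem pr2_surj (hα : Function.Surjective α) : Function.Surjective (pr2 α r) := by
  intro w
  obtain ⟨x, hx⟩ := hα (r w)
  exact ⟨⟨(x, w), hx⟩, rfl⟩

theorem mem_ker2 {x : FP α r} : x ∈ (pr2 α r).ker ↔ x.1.2 = 1 := Iff.rfl

theorem ker_mem {x : FP α r} (h : x ∈ (pr2 α r).ker) : x.1.1 ∈ α.ker := by
  rw [mem_ker2] at h
  rw [MonoidHom.mem_ker, mem_FP.1 x.2, h, map_one]

/-- the embedding of the kernel -/
def inc (x : X) (hx : x ∈ α.ker) : FP α r :=
  ⟨(x, 1), by rw [mem_FP]; exact (MonoidHom.mem_ker.1 hx).trans (map_one r).symm⟩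

theorem inc_mem (x : X) (hx : x ∈ α.ker) : inc α r x hx ∈ (pr2 α r).ker := rfl

theorem map_ker : ((pr2 α r).ker).map (pr1 α r) = α.ker := by
  apply le_antisymm
  · rintro _ ⟨x, hx, rfl⟩
    exact ker_mem α r hx
  · intro x hx
    exact ⟨inc α r x hx, inc_mem α r x hx, rfl⟩

theorem ker_ext {x y : FP α r} (hx : x ∈ (pr2 α r).ker) (hy : y ∈ (pr2 α r).ker)
    (h : x.1.1 = y.1.1) : x = y := by
  rw [mem_ker2] at hx hy
  exact Subtype.ext (Prod.ext h (hx.trans hy.symm))

theorem ker_abR [Finite X] [Finite W'] {p : ℕ} (h : AbR p α.ker) : AbR p (pr2 α r).ker := by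
  intro l hl hlp P hP hPl x hx y hy
  have h1 := h l hl hlp (P.map (pr1 α r)) (by
    rw [← map_ker α r]
    exact Subgroup.map_mono hP) (hPl.map _) (pr1 α r x) ⟨x, hx, rfl⟩ (pr1 α r y) ⟨y, hy, rfl⟩
  exact ker_ext α r (Subgroup.mul_mem _ (hP hx) (hP hy)) (Subgroup.mul_mem _ (hP hy) (hP hx)) h1

/-- the isomorphism of the kernels -/
def kerIso : α.ker →* (pr2 α r).ker where
  toFun x := ⟨inc α r x x.2, inc_mem α r x x.2⟩
  map_one' := rfl
  map_mul' := by
    intro x y
    apply Subtype.ext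
    apply Subtype.ext
    apply Prod.ext
    · rfl
    · exact (one_mul (1 : W')).symm

theorem kerIso_surj : Function.Surjective (kerIso α r) := by
  rintro ⟨x, hx⟩
  refine ⟨⟨x.1.1, ker_mem α r hx⟩, ?_⟩
  apply Subtype.ext
  exact ker_ext α r (inc_mem α r x.1.1 (ker_mem α r hx)) hx rfl

theorem mem_Mp_ker [Finite X] [Finite W'] {p : ℕ} {x : FP α r} :
    x ∈ Mp p (pr2 α r).ker ↔ x.1.2 = 1 ∧ x.1.1 ∈ Mp p α.ker := by
  have hc : (⁅(pr2 α r).ker, (pr2 α r).ker⁆).map (pr1 α r) = ⁅α.ker, α.ker⁆ := by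
    rw [Subgroup.map_commutator, map_ker]
  constructor
  · rintro ⟨hx, k, hk⟩
    refine ⟨hx, ker_mem α r hx, k, ?_⟩
    rw [← hc]
    exact ⟨_, hk, rfl⟩
  · rintro ⟨hx, hx1, k, hk⟩
    refine ⟨hx, k, ?_⟩
    rw [← hc] at hk
    obtain ⟨z, hz, hzx⟩ := hk
    have hz' : z ∈ (pr2 α r).ker := Subgroup.commutator_le_self _ hz
    have h1 : z = x ^ p ^ k := ker_ext α r hz' (Subgroup.pow_mem _ hx _) hzx
    rw [← h1]
    exact hz

end fp

theorem cls_pull (p : ℕ) [hp : Fact p.Prime] (K : Type) [Field K] {X W W' : Type} [Group X]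
    [Finite X] [Group W] [Group W'] [Finite W'] (α : X →* W) (r : W' →* W)
    (hAb : AbR p α.ker)
    (hC : CompIn (SP (fun (T : Type) [Group T] => FacC p T)) α.ker)
    (s : W' →* X ⧸ Mp p α.ker) (hs : ∀ (w : W') (x : X), s w = QuotientGroup.mk x → α x = r w) :
    ClsC p K (pr2 α r) := by
  have hiso : ∀ (T T' : Type) [Group T] [Group T'], Nonempty (T ≃* T') → FacC p T → FacC p T' :=
    fun T T' _ _ h h' => FacC.iso p T T' h h'
  have hsim : ∀ (T : Type) [Group T], FacC p T → IsSimpleGroup T := fun T _ h => FacC.simple p T h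
  -- the map to the fibre product of `X / M`
  let g : FP α r →* (X ⧸ Mp p α.ker) × W' :=
    ((QuotientGroup.mk' (Mp p α.ker)).comp (pr1 α r)).prod (pr2 α r)
  let f1 : FP α r →* g.range := g.rangeRestrict
  have hf1 : Function.Surjective f1 := g.rangeRestrict_surjective
  have hf1k : f1.ker = Mp p (pr2 α r).ker := by
    ext x
    rw [mem_Mp_ker]
    constructor
    · intro hx
      have h1 : g x = 1 := congrArg Subtype.val hx
      have h2 : QuotientGroup.mk' (Mp p α.ker) x.1.1 = 1 := congrArg Prod.fst h1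
      exact ⟨congrArg Prod.snd h1, (QuotientGroup.eq_one_iff _).1 h2⟩
    · rintro ⟨h1, h2⟩
      rw [MonoidHom.mem_ker]
      apply Subtype.ext
      apply Prod.ext
      · exact (QuotientGroup.eq_one_iff _).2 h2
      · exact h1
  let f2 : g.range →* W' := (MonoidHom.snd _ _).comp g.range.subtype
  have hcomp : pr2 α r = f2.comp f1 := rfl
  rw [hcomp]
  refine ClsC.comp f2 f1 ?_ ?_
  · -- the split abelian step
    have hsec : ∀ w : W', (s w, w) ∈ g.range := by
      intro w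
      obtain ⟨x, hx⟩ := QuotientGroup.mk_surjective (s w)
      have h1 := hs w x hx.symm
      exact ⟨⟨(x, w), h1⟩, Prod.ext hx rfl⟩
    let s' : W' →* g.range := (s.prod (MonoidHom.id W')).codRestrict g.range hsec
    have hker : ∀ y : g.range, f2 y = 1 → ∃ x ∈ α.ker, y.1.1 = QuotientGroup.mk' (Mp p α.ker) x ∧ y.1.2 = 1 := by
      rintro ⟨_, ⟨x, rfl⟩⟩ hy
      have h1 : x.1.2 = 1 := hy
      exact ⟨x.1.1, ker_mem α r h1, rfl, h1⟩
    refine ClsC.base _ (Cls.abelian f2 s' (fun w => rfl) inferInstance ?_)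
    intro y z hy hz
    obtain ⟨a, ha, ha1, ha2⟩ := hker y hy
    obtain ⟨b, hb, hb1, hb2⟩ := hker z hz
    apply Subtype.ext
    apply Prod.ext
    · change y.1.1 * z.1.1 = z.1.1 * y.1.1
      rw [ha1, hb1, ← map_mul, ← map_mul]
      have h1 : ⁅a, b⁆ ∈ Mp p α.ker := comm_le_Mp p α.ker (Subgroup.commutator_mem_commutator ha hb)
      have h2 : QuotientGroup.mk' (Mp p α.ker) ⁅a, b⁆ = 1 := (QuotientGroup.eq_one_iff _).2 h1
      rw [map_commutatorElement, commutatorElement_eq_one_iff_mul_comm] at h2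
      rw [map_mul, map_mul]
      exact h2
    · change y.1.2 * z.1.2 = z.1.2 * y.1.2
      rw [ha2, hb2]
  · refine cls_Mp p K _ (FP α r) (pr2 α r).ker rfl (ker_abR α r hAb) ?_ g.range f1 hf1 hf1k
    exact Pool.Agent.Y419.DC.quot (SP.iso hiso) (SP.simple hsim) hC _ (kerIso α r) (kerIso_surj α r)

end Pool.Agent.Q17.NRP
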