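import Mathlib
import Pool.Agent.Q17.NRP.Pull
import Pool.Agent.W200.IJ.CA

/-!
# Weakly solvable embedding problems
-/

set_option autoImplicit false

namespace Pool.Agent.Q17.NRP

open Subgroup
open scoped commutatorElement
open Pool.Agent.Y60.DC (CompIn FacC ClsC clsC_one)
open Pool.Agent.TH444.TW (Cls)
open Pool.Agent.H391R2.T4 (RegSol HilbField)

/-- A weak solution of the embedding problem `X / M → Gal(L/K)`. -/
def WeakMod (K L : Type) [Field K] [Field L] [Algebra K L] [Normal K L] {X : Type} [Group X]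
    (α : X →* (L ≃ₐ[K] L)) (M : Subgroup X) [M.Normal] : Prop :=
  ∃ (L' : Type) (_ : Field L') (_ : Algebra K L') (_ : Algebra L L') (_ : IsScalarTower K L L')
    (_ : FiniteDimensional K L') (_ : IsGalois K L') (s : (L' ≃ₐ[K] L') →* X ⧸ M),
    ∀ (ρ : L' ≃ₐ[K] L') (x : X), s ρ = QuotientGroup.mk x → α x = ρ.restrictNormal L

theorem weak_of_cls {K L X : Type} [Field K] [Field L] [Algebra K L]
    [FiniteDimensional K L] [IsGalois K L] [Group X] [Finite X]
    (α : X →* (L ≃ₐ[K] L)) (M : Subgroup X) [M.Normal]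
    (hw : WeakMod K L α M)
    (hcl : ∀ (L' : Type) [Field L'] [Algebra K L'] [FiniteDimensional K L'] [IsGalois K L']
      (r : (L' ≃ₐ[K] L') →* (L ≃ₐ[K] L)) (s : (L' ≃ₐ[K] L') →* X ⧸ M), Function.Surjective r →
      (∀ (ρ : L' ≃ₐ[K] L') (x : X), s ρ = QuotientGroup.mk x → α x = r ρ) →
      RegSol K L' (FP α r) (pr2 α r)) :
    RegSol K L X α := by
  obtain ⟨L', i1, i2, i3, i4, i5, i6, s, hs⟩ := hw
  let r : (L' ≃ₐ[K] L') →* (L ≃ₐ[K] L) := AlgEquiv.restrictNormalHom L
  have hr : Function.Surjective r := AlgEquiv.restrictNormalHom_surjective L'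
  have h1 := hcl L' r s hr hs
  refine Pool.Agent.W200.IJ.regSol_quot (L' := L') α (pr2 α r) (pr1 α r) (pr1_surj α r hr) ?_ ?_ h1
  · intro x
    exact x.2
  · intro ρ hρ
    exact ⟨⟨(1, ρ), by
      rw [mem_FP]
      exact (map_one α).trans hρ.symm⟩, rfl, rfl⟩

theorem reg_weak (p : ℕ) [hp : Fact p.Prime] {K L X : Type} [Field K] [CharP K p] [Field L]
    [Algebra K L] [FiniteDimensional K L] [IsGalois K L] [Group X] [Finite X]
    (α : X →* (L ≃ₐ[K] L)) (hAb : AbR p α.ker)
    (hC : CompIn (SP (fun (T : Type) [Group T] => FacC p T)) α.ker)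
    (hw : WeakMod K L α (Mp p α.ker)) : RegSol K L X α := by
  refine weak_of_cls α _ hw ?_
  intro L' _ _ _ _ r s hr hs
  exact (clsC_one p K L' (FP α r) (pr2 α r) (cls_pull p K α r hAb hC s hs)).2

end Pool.Agent.Q17.NRP
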