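import Mathlib
import Pool.Agent.Q17.NRP.Weak
import Pool.Agent.TH444.TW.Fin

/-!
# Solvable kernels in every characteristic
-/

set_option autoImplicit false

namespace Pool.Agent.Q17.NRP

open Subgroup
open scoped commutatorElement
open Pool.Agent.TH444.TW (Cls)
open Pool.Agent.Q7.NR
open Pool.Agent.H391R2.T4 (RegSol HilbField)

/-- One step: regular solutions for the class `Cls`. -/
theorem cls_reg (K L X : Type) [Field K] [Field L] [Algebra K L] [FiniteDimensional K L]
    [IsGalois K L] [Group X] (α : X →* (L ≃ₐ[K] L)) (h : Cls K α) : RegSol K L X α := by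
  obtain ⟨h1, h2⟩ := h.main inferInstance
  exact h2.all L (MulEquiv.refl _)

theorem cls_pull_free (K : Type) [Field K] {X W W' : Type} [Group X]
    [Finite X] [Group W] [Group W'] [Finite W'] (α : X →* W) (r : W' →* W)
    (h1 : ∃ k, ser α.ker k = ⊥)
    (h2 : ∀ i, ⁅ser α.ker i, ser α.ker i⁆ ≤ ser α.ker (i + 1))
    (s : W' →* X ⧸ ⁅α.ker, α.ker⁆)
    (hs : ∀ (w : W') (x : X), s w = QuotientGroup.mk x → α x = r w) :
    Cls K (pr2 α r) := by
  have hmap : ∀ i, (ser (pr2 α r).ker i).map (pr1 α r) = ser α.ker i := by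
    intro i
    rw [ser_map, map_ker]
  have hle : ∀ i, ser (pr2 α r).ker i ≤ (pr2 α r).ker := fun i => ser_antitone _ (Nat.zero_le i)
  have g1 : ∃ k, ser (pr2 α r).ker (k + 1) = ⊥ := by
    obtain ⟨k, hk⟩ := h1
    refine ⟨k, ?_⟩
    rw [eq_bot_iff]
    intro x hx
    have h3 : pr1 α r x ∈ ser α.ker k := by
      rw [← hmap]
      exact ⟨x, ser_antitone _ (Nat.le_succ k) hx, rfl⟩
    rw [hk, Subgroup.mem_bot] at h3
    rw [Subgroup.mem_bot]
    exact ker_ext α r (hle _ hx) (Subgroup.one_mem _) h3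
  have g2 : ∀ i, ⁅ser (pr2 α r).ker i, ser (pr2 α r).ker i⁆ ≤ ser (pr2 α r).ker (i + 1) := by
    intro i x hx
    have h3 : pr1 α r x ∈ ser α.ker (i + 1) := by
      apply h2 i
      rw [← hmap i, ← Subgroup.map_commutator]
      exact ⟨x, hx, rfl⟩
    rw [← hmap (i + 1)] at h3
    obtain ⟨y, hy, hyx⟩ := h3
    have hxk : x ∈ (pr2 α r).ker := hle i (Subgroup.commutator_le_self _ hx)
    have h4 : y = x := ker_ext α r (hle _ hy) hxk hyx
    rw [← h4]
    exact hy
  have g3 : ser (pr2 α r).ker 1 = ⁅(pr2 α r).ker, (pr2 α r).ker⁆ := by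
    apply le_antisymm
    · have h3 : nres (pr2 α r).ker ≤ (pr2 α r).ker.lowerCentralSeries 1 := iInf_le _ 1
      rwa [Subgroup.lowerCentralSeries_succ, Subgroup.lowerCentralSeries_zero] at h3
    · exact g2 0
  -- the map to the fibre product of `X / M`
  let g : FP α r →* (X ⧸ ⁅α.ker, α.ker⁆) × W' :=
    ((QuotientGroup.mk' ⁅α.ker, α.ker⁆).comp (pr1 α r)).prod (pr2 α r)
  let f1 : FP α r →* g.range := g.rangeRestrict
  have hf1 : Function.Surjective f1 := g.rangeRestrict_surjective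
  have hc : (⁅(pr2 α r).ker, (pr2 α r).ker⁆).map (pr1 α r) = ⁅α.ker, α.ker⁆ := by
    rw [Subgroup.map_commutator, map_ker]
  have hf1k : f1.ker = ser (pr2 α r).ker 1 := by
    rw [g3]
    ext x
    constructor
    · intro hx
      have h3 : g x = 1 := congrArg Subtype.val hx
      have h4 : QuotientGroup.mk' ⁅α.ker, α.ker⁆ x.1.1 = 1 := congrArg Prod.fst h3
      have h5 : x.1.1 ∈ ⁅α.ker, α.ker⁆ := (QuotientGroup.eq_one_iff _).1 h4
      rw [← hc] at h5
      obtain ⟨y, hy, hyx⟩ := h5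
      have h6 : x ∈ (pr2 α r).ker := congrArg Prod.snd h3
      rw [← ker_ext α r (Subgroup.commutator_le_self _ hy) h6 hyx]
      exact hy
    · intro hx
      rw [MonoidHom.mem_ker]
      apply Subtype.ext
      apply Prod.ext
      · refine (QuotientGroup.eq_one_iff _).2 ?_
        rw [← hc]
        exact ⟨x, hx, rfl⟩
      · exact (Subgroup.commutator_le_self _ hx : x ∈ (pr2 α r).ker)
  let f2 : g.range →* W' := (MonoidHom.snd _ _).comp g.range.subtype
  have hcomp : pr2 α r = f2.comp f1 := rfl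
  rw [hcomp]
  refine Cls.comp f2 f1 ?_ ?_
  · -- the split abelian step
    have hsec : ∀ w : W', (s w, w) ∈ g.range := by
      intro w
      obtain ⟨x, hx⟩ := QuotientGroup.mk_surjective (s w)
      have h1 := hs w x hx.symm
      exact ⟨⟨(x, w), h1⟩, Prod.ext hx rfl⟩
    let s' : W' →* g.range := (s.prod (MonoidHom.id W')).codRestrict g.range hsec
    have hker : ∀ y : g.range, f2 y = 1 →
        ∃ x ∈ α.ker, y.1.1 = QuotientGroup.mk' ⁅α.ker, α.ker⁆ x ∧ y.1.2 = 1 := by
      rintro ⟨_, ⟨x, rfl⟩⟩ hy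
      have h1 : x.1.2 = 1 := hy
      exact ⟨x.1.1, ker_mem α r h1, rfl, h1⟩
    refine Cls.abelian f2 s' (fun w => rfl) inferInstance ?_
    intro y z hy hz
    obtain ⟨a, ha, ha1, ha2⟩ := hker y hy
    obtain ⟨b, hb, hb1, hb2⟩ := hker z hz
    apply Subtype.ext
    apply Prod.ext
    · change y.1.1 * z.1.1 = z.1.1 * y.1.1
      rw [ha1, hb1, ← map_mul, ← map_mul]
      have h1 : ⁅a, b⁆ ∈ ⁅α.ker, α.ker⁆ := Subgroup.commutator_mem_commutator ha hb
      have h2 : QuotientGroup.mk' ⁅α.ker, α.ker⁆ ⁅a, b⁆ = 1 := (QuotientGroup.eq_one_iff _).2 h1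
      rw [map_commutatorElement, commutatorElement_eq_one_iff_mul_comm] at h2
      rw [map_mul, map_mul]
      exact h2
    · change y.1.2 * z.1.2 = z.1.2 * y.1.2
      rw [ha2, hb2]
  · obtain ⟨k, hk⟩ := g1
    exact cls_ser K k (FP α r) (pr2 α r).ker hk (fun i _ => g2 i) g.range f1 hf1 hf1k

theorem reg_weak_free {K L X : Type} [Field K] [Field L]
    [Algebra K L] [FiniteDimensional K L] [IsGalois K L] [Group X] [Finite X]
    (α : X →* (L ≃ₐ[K] L)) (h1 : ∃ k, ser α.ker k = ⊥)
    (h2 : ∀ i, ⁅ser α.ker i, ser α.ker i⁆ ≤ ser α.ker (i + 1))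
    (hw : WeakMod K L α ⁅α.ker, α.ker⁆) : RegSol K L X α := by
  refine weak_of_cls α _ hw ?_
  intro L' _ _ _ _ r s hr hs
  exact cls_reg K L' (FP α r) (pr2 α r) (cls_pull_free K α r h1 h2 s hs)

/-- Kernels with trivial centre whose inner automorphisms have a complement in the automorphism
group: the problem splits. -/
theorem split_of_compl {X W : Type} [Group X] [Group W] (α : X →* W) (hα : Function.Surjective α)
    (hZ : Subgroup.center α.ker = ⊥)
    (hT : ∃ T : Subgroup (MulAut α.ker), IsCompl T (MulAut.conj : α.ker →* MulAut α.ker).range) :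
    ∃ s : W →* X, ∀ w, α (s w) = w := by
  obtain ⟨T, hT1, hT2⟩ := hT
  let c : X →* MulAut α.ker := MulAut.conjNormal
  let H : Subgroup X := T.comap c
  have hc : ∀ n : α.ker, c (n : X) = MulAut.conj n := by
    intro n
    apply MulEquiv.ext
    intro m
    apply Subtype.ext
    rw [MulAut.conjNormal_apply]
    rfl
  have hinj : ∀ x ∈ H, α x = 1 → x = 1 := by
    intro x hx hx1
    let n : α.ker := ⟨x, hx1⟩
    have h1 : MulAut.conj n ∈ T ⊓ (MulAut.conj : α.ker →* MulAut α.ker).range := by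
      refine ⟨?_, ⟨n, rfl⟩⟩
      rw [← hc]
      exact hx
    rw [hT1.eq_bot, Subgroup.mem_bot] at h1
    have h2 : n ∈ Subgroup.center α.ker := by
      rw [Subgroup.mem_center_iff]
      intro m
      have h3 : MulAut.conj n m = m := by rw [h1]; rfl
      rw [MulAut.conj_apply] at h3
      exact (mul_inv_eq_iff_eq_mul.1 h3).symm
    rw [hZ, Subgroup.mem_bot] at h2
    exact congrArg Subtype.val h2
  have hsur : ∀ w : W, ∃ x ∈ H, α x = w := by
    intro w
    obtain ⟨x, hx⟩ := hα w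
    have h1 : c x ∈ T ⊔ (MulAut.conj : α.ker →* MulAut α.ker).range := by
      rw [hT2.eq_top]
      exact Subgroup.mem_top _
    have hn : (MulAut.conj : α.ker →* MulAut α.ker).range.Normal := by
      refine ⟨?_⟩
      rintro _ ⟨n, rfl⟩ g
      refine ⟨g n, ?_⟩
      apply MulEquiv.ext
      intro m
      simp [MulAut.conj_apply]
    obtain ⟨t, ht, _, ⟨n, rfl⟩, h2⟩ := Subgroup.mem_sup_of_normal_right.mp h1
    refine ⟨x * (n : X)⁻¹, ?_, ?_⟩
    · change c (x * (n : X)⁻¹) ∈ T
      rw [map_mul, map_inv, hc, ← h2, mul_inv_cancel_right]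
      exact ht
    · rw [map_mul, map_inv, show α (n : X) = 1 from n.2, inv_one, mul_one, hx]
  let β : H →* W := α.comp H.subtype
  have hβ : Function.Bijective β := by
    constructor
    · rw [injective_iff_map_eq_one]
      intro x hx
      exact Subtype.ext (hinj x x.2 hx)
    · intro w
      obtain ⟨x, hx, hxw⟩ := hsur w
      exact ⟨⟨x, hx⟩, hxw⟩
  let e := MulEquiv.ofBijective β hβ
  exact ⟨H.subtype.comp e.symm.toMonoidHom, fun w => e.apply_symm_apply w⟩

end Pool.Agent.Q17.NRP
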