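import Mathlib
import Pool.Agent.Q17.NRP.Defs
import Pool.Agent.Q17.NRP.Free

/-!
# Final forms
-/

set_option autoImplicit false

namespace Pool.Agent.Q17.NRP

open Subgroup
open scoped commutatorElement
open Pool.Agent.Y60.DC (CompIn FacC ClsC clsC_one clsC_regular clsC_spec clsC_hilb clsC_ratFunc)
open Pool.Agent.Y60.DCF (Factor Step)
open Pool.Agent.TH444.TW (Cls finite_of_ker)
open Pool.Agent.Q7.NR
open Pool.Agent.H391R2.T4 (RegSol HilbField)
open Pool.Agent.TH377.IG (SpecProp)

lemma AbelianSylows.abR {p : ℕ} {X : Type} [Group X] [Finite X] {N : Subgroup X}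
    (h : AbelianSylows p N) : AbR p N := by
  intro r hr hrp P hPN hP x hx y hy
  have := Fact.mk hr
  have h1 : IsPGroup r (P.subgroupOf N) := hP.comap_subtype
  obtain ⟨Q, hQ⟩ := h1.exists_le_sylow
  exact congrArg Subtype.val (h r Q hrp ⟨x, hPN hx⟩ (hQ hx) ⟨y, hPN hy⟩ (hQ hy))

lemma compIn_allowed {p : ℕ} [Fact p.Prime] {N : Type} [Group N] (h : CompIn (Allowed p) N) :
    CompIn (SP (fun (T : Type) [Group T] => FacC p T)) N := by
  refine Pool.Agent.Y60.DCF.compIn_mono (fun T _ hT => ?_) h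
  rcases hT with hT | hT
  · exact Or.inl (Pool.Agent.Y60.DCF.Factor.old T hT)
  · exact Or.inr hT

lemma WeakSolModulo.old {K L X : Type} [Field K] [Field L] [Algebra K L] [Normal K L] [Group X]
    {α : X →* (L ≃ₐ[K] L)} {M : Subgroup X} [M.Normal] (h : WeakSolModulo K L α M) :
    WeakMod K L α M := h

/-- a section gives a weak solution -/
lemma weakSol_of_section {K L X : Type} [Field K] [Field L] [Algebra K L]
    [FiniteDimensional K L] [IsGalois K L] [Group X]
    (α : X →* (L ≃ₐ[K] L)) (M : Subgroup X) [M.Normal] (hM : M ≤ α.ker)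
    (s : (L ≃ₐ[K] L) →* X) (hs : ∀ ρ, α (s ρ) = ρ) : WeakSolModulo K L α M := by
  refine ⟨L, inferInstance, inferInstance, inferInstance, inferInstance, inferInstance,
    inferInstance, (QuotientGroup.mk' M).comp s, fun ρ x hx => ?_⟩
  have h1 : (s ρ)⁻¹ * x ∈ M := QuotientGroup.eq.1 hx
  have h2 : α ((s ρ)⁻¹ * x) = 1 := hM h1
  rw [map_mul, map_inv, hs, inv_mul_eq_one] at h2
  rw [← h2, Pool.Agent.TH444.TW.restrictNormal_self]

/-- the case `M = ker α` -/
lemma weakSol_of_eq {K L X : Type} [Field K] [Field L] [Algebra K L]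
    [FiniteDimensional K L] [IsGalois K L] [Group X]
    (α : X →* (L ≃ₐ[K] L)) (hα : Function.Surjective α) (M : Subgroup X) [M.Normal]
    (hM : M = α.ker) : WeakSolModulo K L α M := by
  subst hM
  let e := QuotientGroup.quotientKerEquivOfSurjective α hα
  refine ⟨L, inferInstance, inferInstance, inferInstance, inferInstance, inferInstance,
    inferInstance, e.symm.toMonoidHom, fun ρ x hx => ?_⟩
  have h1 : e (e.symm ρ) = e (QuotientGroup.mk x) := congrArg e hx
  rw [MulEquiv.apply_symm_apply] at h1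
  rw [Pool.Agent.TH444.TW.restrictNormal_self, h1]
  rfl

lemma residual_eq {p : ℕ} {X : Type} [Group X] [Finite X] {N : Subgroup X}
    (h : AbelianizationIsPGroup p N) : residual p N = N := by
  apply le_antisymm (Mp_le p N)
  intro x hx
  obtain ⟨k, hk⟩ := h ⟨x, hx⟩
  refine ⟨hx, k, ?_⟩
  have h1 : (commutator N).map N.subtype = ⁅N, N⁆ := Subgroup.map_subtype_commutator N
  rw [← h1]
  exact ⟨_, hk, rfl⟩

/-- Regular solutions. -/
theorem reg_good (p : ℕ) [hp : Fact p.Prime] {K L X : Type} [Field K] [CharP K p] [Field L]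
    [Algebra K L] [FiniteDimensional K L] [IsGalois K L] [Group X] [Finite X]
    (α : X →* (L ≃ₐ[K] L)) (hk : GoodKernel p α.ker)
    (hw : WeakSolModulo K L α (residual p α.ker)) : RegSol K L X α :=
  reg_weak p α hk.1.abR (compIn_allowed hk.2) hw

/-- Proper solutions. -/
def ProperSol (K L X : Type) [Field K] [Field L] [Algebra K L] [Normal K L] [Group X]
    (α : X →* (L ≃ₐ[K] L)) : Prop :=
  ∃ (F : Type) (_ : Field F) (_ : Algebra K F) (_ : Algebra L F) (_ : IsScalarTower K L F),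
    FiniteDimensional K F ∧ IsGalois K F ∧
    ∃ γ : (F ≃ₐ[K] F) ≃* X, ∀ σ : F ≃ₐ[K] F, α (γ σ) = σ.restrictNormal L

theorem proper_of_reg {K : Type} [Field K] (hK : SpecProp K) {L X : Type} [Field L]
    [Algebra K L] [FiniteDimensional K L] [IsGalois K L] [Group X] [Finite X]
    (α : X →* (L ≃ₐ[K] L)) (h : RegSol K L X α) : ProperSol K L X α := by
  obtain ⟨F, i1, i2, i3, i4, i5, i6, i7, i8, γ, hγ, -⟩ := h
  exact hK L X α ⟨F, i1, i2, i3, i4, i5, i6, i7, i8, γ, hγ⟩

theorem weak_of_proper {K L X : Type} [Field K] [Field L]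
    [Algebra K L] [FiniteDimensional K L] [IsGalois K L] [Group X]
    (α : X →* (L ≃ₐ[K] L)) (M : Subgroup X) [M.Normal] (hM : M ≤ α.ker)
    (h : ProperSol K L X α) : WeakSolModulo K L α M := by
  obtain ⟨F, i1, i2, i3, i4, i5, i6, γ, hγ⟩ := h
  refine ⟨F, i1, i2, i3, i4, i5, i6, (QuotientGroup.mk' M).comp γ.toMonoidHom, fun ρ x hx => ?_⟩
  have h1 : (γ ρ)⁻¹ * x ∈ M := QuotientGroup.eq.1 hx
  have h2 : α ((γ ρ)⁻¹ * x) = 1 := hM h1
  rw [map_mul, map_inv, inv_mul_eq_one] at h2
  rw [← h2, hγ]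

/-- The homomorphisms of type II. -/
def TypeTwo (p : ℕ) [Fact p.Prime] {W W' : Type} [Group W] [Group W'] (π : W' →* W) : Prop :=
  Function.Surjective π ∧ Finite π.ker ∧ GoodKernel p π.ker ∧ AbelianizationIsPGroup p π.ker

theorem TypeTwo.cls (p : ℕ) [Fact p.Prime] (K : Type) [Field K] {W W' : Type} [Group W]
    [Group W'] [Finite W] {π : W' →* W} (h : TypeTwo p π) : ClsC p K π := by
  obtain ⟨h1, h2, h3, h4⟩ := h
  have : Finite W' := finite_of_ker π
  exact cls_Mp p K _ W' π.ker rfl h3.1.abR (compIn_allowed h3.2) W π h1 (residual_eq h4).symm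

theorem tower_cls (p : ℕ) [Fact p.Prime] (K : Type) [Field K] [CharP K p]
    (W : ℕ → Type) [∀ i, Group (W i)] (π : ∀ i, W (i + 1) →* W i)
    (hp : ∀ i, Step p K (π i) ∨ TypeTwo p (π i)) (h0 : Finite (W 0)) :
    ∀ i, ClsC p K (π i) := by
  have key : ∀ i, Finite (W i) ∧ ClsC p K (π i) := by
    intro i
    induction i with
    | zero =>
      refine ⟨h0, ?_⟩
      rcases hp 0 with h | h
      · exact h.old
      · exact h.cls p K
    | succ i ih =>
      obtain ⟨h1, h2⟩ := ih
      have h3 : Finite (W (i + 1)) := (h2.main p h1).1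
      refine ⟨h3, ?_⟩
      rcases hp (i + 1) with h | h
      · exact h.old
      · exact h.cls p K
  exact fun i => (key i).2

/-- `X → X / M` -/
theorem cls_residual (p : ℕ) [Fact p.Prime] (K : Type) [Field K] {X : Type} [Group X] [Finite X]
    (N : Subgroup X) [N.Normal] (h : GoodKernel p N) :
    ClsC p K (QuotientGroup.mk' (residual p N)) :=
  cls_Mp p K _ X N rfl h.1.abR (compIn_allowed h.2) _ (QuotientGroup.mk' _)
    (QuotientGroup.mk'_surjective _) (QuotientGroup.ker_mk' _)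

end Pool.Agent.Q17.NRP
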